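import Pool.Agent.helper45.SGK.Spec

/-!
# Row sk:AVO (MP_069684_lc)
-/

set_option autoImplicit false

namespace Pool.Agent.SGK

open Finset Pool.Agent.helper38.Neg Pool.Agent.helper55.NT
open Pool.Agent.SGC (Sg SCirc Ext Mv hw RN Solv stA stB)

/-- the circuit with another output -/
def AVO_c {n : ℕ} {G : Type} (C : SCirc n G) (o : G) : SCirc n G where
  lab := C.lab
  kids := C.kids
  fn := C.fn
  rank := C.rank
  acyc := C.acyc
  out := o

theorem AVO_val {n : ℕ} {G : Type} (C : SCirc n G) (o : G) (x : Fin n → Bool) (k : ℕ) :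
    ∀ g : G, C.rank g < k → (AVO_c C o).val x g = C.val x g := by
  induction k with
  | zero => intro g hg; omega
  | succ k ih =>
    intro g hg
    rcases hc : C.lab g with _ | p
    · rw [Pool.Agent.SGC.SCirc.val_none (AVO_c C o) x g hc, Pool.Agent.SGC.SCirc.val_none C x g hc]
      show C.fn g _ = C.fn g _
      congr 2
      apply Finset.filter_congr
      intro h hh
      have h1 : C.rank h < k := lt_of_lt_of_le (C.acyc g h hh) (Nat.lt_succ_iff.mp hg)
      rw [ih h h1]
    · rw [Pool.Agent.SGC.SCirc.val_some (AVO_c C o) x g p hc, Pool.Agent.SGC.SCirc.val_some C x g p hc]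

theorem AVO (hTRK : TRK_stmt) : AVO_stmt := by
  intro k _ n V W act F m w hA hw
  obtain ⟨G, hG, C, emb, h1, h2, h3, h4⟩ := hA
  obtain ⟨C', h5, h6⟩ := hTRK k n G V (AVO_c C (emb w)) (fun γ hγ => by
    obtain ⟨π, a1, a2, a3, a4⟩ := h4 γ hγ
    refine ⟨π, a1, a2, a3, ?_⟩
    show π (emb w) = emb w
    rw [a4 w, hw γ hγ])
  refine ⟨Fintype.card G, h1, C', h5, fun x => ?_⟩
  rw [h6 x]
  show (AVO_c C (emb w)).val x (emb w) = F w x
  rw [AVO_val C (emb w) x (C.rank (emb w) + 1) (emb w) (Nat.lt_succ_self _), h3]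

end Pool.Agent.SGK
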