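import Pool.Agent.helper45.SGK.Spec

set_option autoImplicit false

namespace Pool.Agent.SGK

open Finset Pool.Agent.helper38.Neg Pool.Agent.helper55.NT
open Pool.Agent.SGC (Sg SCirc Ext Mv hw RN Solv stA stB)

theorem CRP_shf {k : ℕ} (R : Finset (Wd k)) (d d' : Wd k) : shf (shf R d) d' = shf R (d + d') := by
  ext z
  simp only [shf, mem_filter, mem_univ, true_and]
  rw [show z + d' + d = z + (d + d') by rw [add_assoc, add_comm d' d]]

theorem CRP_zero {k : ℕ} (R : Finset (Wd k)) : shf R 0 = R := by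
  ext z
  simp [shf]

theorem CRP_self {k : ℕ} (d : Wd k) : d + d = 0 := by
  funext j
  exact CharTwo.add_self_eq_zero _

theorem CRP : CRP_stmt := by
  intro k
  have hf : ∀ R : Finset (Wd k), ∃ c : Wd k, ∀ d : Wd k,
      (Fintype.equivFin (Finset (Wd k)) (shf R c)) ≤ (Fintype.equivFin (Finset (Wd k)) (shf R d)) := fun R =>
    Finite.exists_min fun d : Wd k => Fintype.equivFin (Finset (Wd k)) (shf R d)
  choose cr hcr using hf
  refine ⟨cr, fun R d => ?_⟩
  have h1 := hcr (shf R d) (cr R + d)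
  rw [CRP_shf, CRP_shf] at h1
  have e1 : d + (cr R + d) = cr R := by
    rw [add_comm (cr R) d, ← add_assoc, CRP_self, zero_add]
  rw [e1] at h1
  have h2 := hcr R (d + cr (shf R d))
  have h3 : shf R (d + cr (shf R d)) = shf R (cr R) :=
    (Fintype.equivFin (Finset (Wd k))).injective (le_antisymm h1 h2)
  unfold Per
  have h4 : cr (shf R d) + cr R + d = (d + cr (shf R d)) + cr R := by
    rw [add_comm _ d, add_assoc]
  rw [h4, ← CRP_shf, h3, CRP_shf, CRP_self, CRP_zero]

end Pool.Agent.SGK
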