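import Pool.Agent.helper45.SGK.Fin

/-!
# Project SGK (MP_069684_lc): examples
-/

set_option autoImplicit false

namespace Pool.Agent.SGK

open Finset Pool.Agent.helper38.Neg Pool.Agent.helper55.NT
open Pool.Agent.SGC (Sg SCirc Ext Mv hw RN Solv stA stB)

/-- The sum of the first three coordinates. -/
def Exa_s {k : ℕ} (h : 3 ≤ k) (z : Wd k) : ZMod 2 := z ⟨0, by omega⟩ + z ⟨1, by omega⟩ + z ⟨2, by omega⟩

theorem Exa_maj {k : ℕ} (a b c : Fin k) (h1 : a ≠ b) (h2 : a ≠ c) (h3 : b ≠ c) :
    maj3 (Pi.single a 1) (Pi.single b 1) (Pi.single c 1) = (0 : Wd k) := by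
  funext j
  show (Pi.single a 1 : Wd k) j * (Pi.single b 1 : Wd k) j + (Pi.single b 1 : Wd k) j * (Pi.single c 1 : Wd k) j +
    (Pi.single c 1 : Wd k) j * (Pi.single a 1 : Wd k) j = 0
  simp only [Pi.single_apply]
  by_cases ha : j = a
  · subst ha
    simp [h1, h2]
  · by_cases hb : j = b
    · subst hb
      simp [ha, h3]
    · simp [ha, hb]

theorem Exa_single {k : ℕ} (j : Fin k) : (Pi.single j 1 : Wd k) ≠ 0 := by
  intro h
  have := congrFun h j
  rw [Pi.single_eq_same] at this
  exact one_ne_zero this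

theorem kSat_spec (k : ℕ) (h : 3 ≤ k) : ¬ MajClosed (kSat k) ∧ ¬ AffClosed (kSat k) ∧ ¬ Rigid (kSat k) := by
  have h01 : (⟨0, by omega⟩ : Fin k) ≠ ⟨1, by omega⟩ := by simp
  have h02 : (⟨0, by omega⟩ : Fin k) ≠ ⟨2, by omega⟩ := by simp
  have h12 : (⟨1, by omega⟩ : Fin k) ≠ ⟨2, by omega⟩ := by simp
  have hM := Exa_maj _ _ _ h01 h02 h12
  have hs : ∀ j : Fin k, (Pi.single j 1 : Wd k) ∈ kSat k := fun j =>
    mem_erase.2 ⟨Exa_single j, mem_univ _⟩
  refine ⟨fun h' => ?_, fun h' => ?_, fun hR => ?_⟩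
  · have h1 := h' _ (hs ⟨0, by omega⟩) _ (hs ⟨1, by omega⟩) _ (hs ⟨2, by omega⟩)
    rw [hM] at h1
    exact (mem_erase.1 h1).1 rfl
  · have h2 : (Pi.single ⟨0, by omega⟩ 1 + Pi.single ⟨1, by omega⟩ 1 : Wd k) ∈ kSat k := by
      refine mem_erase.2 ⟨fun h3 => ?_, mem_univ _⟩
      have := congrFun h3 ⟨0, by omega⟩
      rw [Pi.add_apply, Pi.single_eq_same, Pi.single_eq_of_ne h01, add_zero] at this
      exact one_ne_zero this
    have h1 := h' _ (hs ⟨0, by omega⟩) _ (hs ⟨1, by omega⟩) _ h2
    refine (mem_erase.1 h1).1 ?_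
    funext j
    have h7 : ∀ u v : ZMod 2, u + v + (u + v) = 0 := by decide
    exact h7 _ _
  · have hm : ∀ z : Wd k, z ∈ tr (kSat k) (univ.filter fun a => Exa_s h a = 0) ↔ Exa_s h z = 1 := by
      intro z
      simp only [tr, kSat, mem_filter, mem_univ, true_and, mem_erase, and_true]
      constructor
      · intro h1
        by_contra h2
        refine h1 z ?_ (funext fun j => CharTwo.add_self_eq_zero _)
        have h3 : ∀ u : ZMod 2, u ≠ 1 → u = 0 := by decide
        exact h3 _ h2
      · intro h1 a ha h2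
        have h3 : z = a := by
          funext j
          have h4 : ∀ u v : ZMod 2, u + v = 0 → u = v := by decide
          exact h4 _ _ (congrFun h2 j)
        rw [h3, ha] at h1
        exact zero_ne_one h1
    have h1 := hR (univ.filter fun a => Exa_s h a = 0) (by
      intro a ha b hb c hc
      rw [hm] at ha hb hc ⊢
      have h3 : ∀ a b c d e f g i j : ZMod 2, a + b + c = 1 → d + e + f = 1 → g + i + j = 1 →
          (a + d + g) + (b + e + i) + (c + f + j) = 1 := by decide
      exact h3 _ _ _ _ _ _ _ _ _ ha hb hc)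
    have h2 := h1 (Pi.single ⟨0, by omega⟩ 1) (by rw [hm]; simp [Exa_s])
      (Pi.single ⟨1, by omega⟩ 1) (by rw [hm]; simp [Exa_s])
      (Pi.single ⟨2, by omega⟩ 1) (by rw [hm]; simp [Exa_s])
    rw [hM, hm] at h2
    simp [Exa_s] at h2

theorem oneIn_spec (k : ℕ) (h : 3 ≤ k) : ¬ MajClosed (oneIn k) ∧ ¬ AffClosed (oneIn k) ∧ Rigid (oneIn k) := by
  classical
  have h01 : (⟨0, by omega⟩ : Fin k) ≠ ⟨1, by omega⟩ := by simp
  have h02 : (⟨0, by omega⟩ : Fin k) ≠ ⟨2, by omega⟩ := by simp
  have h12 : (⟨1, by omega⟩ : Fin k) ≠ ⟨2, by omega⟩ := by simp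
  have hs : ∀ j : Fin k, (Pi.single j 1 : Wd k) ∈ oneIn k := fun j => mem_image.2 ⟨j, mem_univ _, rfl⟩
  have h3 : ∀ a b c : Fin k, a ≠ b → a ≠ c → b ≠ c →
      (Pi.single a 1 + Pi.single b 1 + Pi.single c 1 : Wd k) ∉ oneIn k := by
    intro a b c hab hac hbc h4
    obtain ⟨j, -, hj⟩ := mem_image.1 h4
    have ea := congrFun hj a
    have eb := congrFun hj b
    simp only [Pi.add_apply, Pi.single_apply] at ea eb
    simp only [if_pos, if_neg hab, if_neg hac, if_neg hab.symm, if_neg hbc, add_zero, zero_add] at ea eb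
    by_cases h5 : a = j
    · by_cases h6 : b = j
      · exact hab (h5.trans h6.symm)
      · rw [if_neg h6] at eb
        exact zero_ne_one eb
    · rw [if_neg h5] at ea
      exact zero_ne_one ea
  refine ⟨fun h' => ?_, fun h' => ?_, fun A hA => ?_⟩
  · have h1 := h' _ (hs ⟨0, by omega⟩) _ (hs ⟨1, by omega⟩) _ (hs ⟨2, by omega⟩)
    rw [Exa_maj _ _ _ h01 h02 h12] at h1
    obtain ⟨j, -, hj⟩ := mem_image.1 h1
    exact Exa_single j hj
  · exact h3 _ _ _ h01 h02 h12 (h' _ (hs ⟨0, by omega⟩) _ (hs ⟨1, by omega⟩) _ (hs ⟨2, by omega⟩))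
  · intro x hx y hy z hz
    by_cases h4 : A = ∅
    · rw [h4]
      simp [tr]
    · obtain ⟨a, ha⟩ := Finset.nonempty_iff_ne_empty.2 h4
      have h5 := hA x hx y hy z hz
      have m : ∀ w : Wd k, w ∈ tr (oneIn k) A → ∃ j : Fin k, w = Pi.single j 1 + a := by
        intro w hw
        have h6 := (mem_filter.1 hw).2 a ha
        obtain ⟨j, -, hj⟩ := mem_image.1 h6
        refine ⟨j, ?_⟩
        rw [hj]
        funext i
        have h7 : ∀ u v : ZMod 2, u = u + v + v := by decide
        exact h7 _ _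
      obtain ⟨jx, ex⟩ := m x hx
      obtain ⟨jy, ey⟩ := m y hy
      obtain ⟨jz, ez⟩ := m z hz
      have m1 : ∀ u v : Wd k, maj3 u u v = u := by
        intro u v
        funext i
        have h7 : ∀ u v : ZMod 2, u * u + u * v + v * u = u := by decide
        exact h7 _ _
      have m2 : ∀ u v : Wd k, maj3 u v u = u := by
        intro u v
        funext i
        have h7 : ∀ u v : ZMod 2, u * v + v * u + u * u = u := by decide
        exact h7 _ _
      have m3 : ∀ u v : Wd k, maj3 v u u = u := by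
        intro u v
        funext i
        have h7 : ∀ u v : ZMod 2, v * u + u * u + u * v = u := by decide
        exact h7 _ _
      by_cases hxy : jx = jy
      · have e : x = y := by rw [ex, ey, hxy]
        rw [e, m1]
        exact hy
      · by_cases hxz : jx = jz
        · have e : x = z := by rw [ex, ez, hxz]
          rw [e, m2]
          exact hz
        · by_cases hyz : jy = jz
          · have e : y = z := by rw [ey, ez, hyz]
            rw [e, m3]
            exact hz
          · exfalso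
            have h6 := (mem_filter.1 h5).2 a ha
            refine h3 jx jy jz hxy hxz hyz ?_
            have e : x + y + z + a = Pi.single jx 1 + Pi.single jy 1 + Pi.single jz 1 := by
              rw [ex, ey, ez]
              funext i
              have h7 : ∀ u v w b : ZMod 2, (u + b) + (v + b) + (w + b) + b = u + v + w := by decide
              exact h7 _ _ _ _
            rw [e] at h6
            exact h6

theorem Exa_nae : ∀ a b c : Fin 3 → ZMod 2, ∃ d : ZMod 2,
    (∀ j, a j * b j + b j * c j + c j * a j = a j + d) ∨ (∀ j, a j * b j + b j * c j + c j * a j = b j + d) ∨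
      (∀ j, a j * b j + b j * c j + c j * a j = c j + d) ∨
      (∀ j, a j * b j + b j * c j + c j * a j = a j + b j + c j + d) := by
  decide

theorem nae3_spec : ¬ MajClosed nae3 ∧ ¬ AffClosed nae3 ∧ Rigid nae3 := by
  have hs : ∀ j : Fin 3, (Pi.single j 1 : Wd 3) ∈ nae3 := by decide
  have hmem : ∀ z : Wd 3, z ∈ nae3 ↔ z ≠ 1 ∧ z ≠ 0 := fun z => by
    simp [nae3]
  refine ⟨fun h' => ?_, fun h' => ?_, fun A hA => ?_⟩
  · have h1 := h' _ (hs 0) _ (hs 1) _ (hs 2)
    rw [Exa_maj _ _ _ (by decide) (by decide) (by decide), hmem] at h1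
    exact h1.2 rfl
  · have h1 := h' _ (hs 0) _ (hs 1) _ (hs 2)
    rw [hmem] at h1
    exact h1.1 (by decide)
  · have hc : ∀ z ∈ tr nae3 A, ∀ d : ZMod 2, (fun j => z j + d) ∈ tr nae3 A := by
      intro z hz d
      have h2 : d = 0 ∨ d = 1 := by
        revert d
        decide
      rcases h2 with rfl | rfl
      · simpa using hz
      · refine mem_filter.2 ⟨mem_univ _, fun a ha => ?_⟩
        have h3 := (hmem _).1 ((mem_filter.1 hz).2 a ha)
        rw [hmem]
        refine ⟨fun h4 => h3.2 ?_, fun h4 => h3.1 ?_⟩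
        · funext j
          have h5 := congrFun h4 j
          have h6 : ∀ u v : ZMod 2, u + 1 + v = 1 → u + v = 0 := by decide
          exact h6 _ _ h5
        · funext j
          have h5 := congrFun h4 j
          have h6 : ∀ u v : ZMod 2, u + 1 + v = 0 → u + v = 1 := by decide
          exact h6 _ _ h5
    intro x hx y hy z hz
    obtain ⟨d, h | h | h | h⟩ := Exa_nae x y z
    · rw [show maj3 x y z = fun j => x j + d from funext h]
      exact hc x hx d
    · rw [show maj3 x y z = fun j => y j + d from funext h]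
      exact hc y hy d
    · rw [show maj3 x y z = fun j => z j + d from funext h]
      exact hc z hz d
    · rw [show maj3 x y z = fun j => (x + y + z) j + d from funext h]
      exact hc _ (hA x hx y hy z hz) d

end Pool.Agent.SGK
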