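import Pool.Agent.helper45.SGK.Spec

set_option autoImplicit false

namespace Pool.Agent.SGK

open Finset Pool.Agent.helper38.Neg Pool.Agent.helper55.NT
open Pool.Agent.SGC (Sg SCirc Ext Mv hw RN Solv stA stB)

theorem FRE_val_in {n s : ℕ} (C : Circuit n s) (x : Fin n → Bool) (i : Fin n) :
    C.val x (Fin.castAdd s i) = x i := by
  induction C with
  | nil => rfl
  | @snoc s C g ih =>
    have e : Fin.castAdd (s + 1) i = Fin.castSucc (Fin.castAdd s i) := rfl
    rw [e]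
    show Fin.snoc (α := fun _ => Bool) (C.val x) (g.eval (C.val x)) (Fin.castSucc (Fin.castAdd s i)) = x i
    rw [Fin.snoc_castSucc]
    exact ih

theorem FRE_card (k t : ℕ) : Fintype.card (Es k t) = t ^ k * (k * (k + 1)) := by
  simp [Es]

theorem FRE_tw_pow (k n : ℕ) [NeZero k] : tw k n ^ k ≤ n := by
  have h := tw_le k n
  have h1 : tw k n ^ k * 1 ≤ tw k n ^ k * 2 ^ k := Nat.mul_le_mul_left _ Nat.one_le_two_pow
  omega

theorem FRE_tw (k n : ℕ) : tw k n ≤ n := Nat.findGreatest_le n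

theorem FRE (hCRP : CRP_stmt) (hLED : LED_stmt) (hLST : LST_stmt) (hLNF : LNF_stmt) (hNFS : NFS_stmt)
    (hAVG : AVG_stmt) (hAVO : AVO_stmt) : FRE_stmt := by
  classical
  intro k _ P hR
  rintro ⟨p, hp⟩ V
  obtain ⟨cr, hcr⟩ := hCRP k
  obtain ⟨a, ha⟩ := hLNF k cr P hR hcr
  refine ⟨2 * Polynomial.X + 1 + Polynomial.X * (Polynomial.C (k * (k + 1)) * 2 * Polynomial.C (2 ^ 2 ^ k + 1)) +
    (Polynomial.X * Polynomial.C (k * (k + 1)) + 1) *
      (Polynomial.X + Polynomial.X * Polynomial.C (k * (k + 1)) * 2 + 2 ^ 15 * (2 * (Polynomial.X + 1) ^ 2)) +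
    Polynomial.C a * (Polynomial.X + 1) ^ a + p, fun n => ?_⟩
  have hL : ∀ e : Es k (tw k n), e ∈ (univ : Finset (Es k (tw k n))).toList := fun e => by simp
  have h1 := hLED k cr P hcr n (V n)
  have h2 := hLST k cr P hcr n (V n) _ h1 (univ : Finset (Es k (tw k n))).toList
  obtain ⟨W, act, F, u, h3, h4, h5⟩ := ha n (V n) _ _ hL h2
  obtain ⟨s, hs, C, o, hC⟩ := hp n
  have h6 := hAVG k n (V n) W act F _ n s C u h3 h4
  obtain ⟨w, hw1, hw2⟩ : ∃ w : W ⊕ Fin s, (∀ γ ∈ V n, (act.sum (Act.triv _ (Fin s))).f γ w = w) ∧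
      ∀ x, (Sum.elim F fun (j : Fin s) (x : Fin n → Bool) => C.val (fun i => F (u i) x) (Fin.natAdd n j)) w x =
        C.val (fun i => F (u i) x) o := by
    induction o using Fin.addCases with
    | left i =>
      refine ⟨Sum.inl (u i), fun γ hγ => congrArg Sum.inl (h4 γ hγ i), fun x => ?_⟩
      rw [FRE_val_in]
      rfl
    | right j => exact ⟨Sum.inr j, fun γ _ => rfl, fun x => rfl⟩
  obtain ⟨s', hs', C', hC1, hC2⟩ := hAVO k n (V n) _ _ _ _ w h6 hw1
  refine ⟨s', hs'.trans ?_, C', hC1, fun x => ?_⟩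
  · have c1 : Fintype.card (Es k (tw k n) × ZMod 2) = tw k n ^ k * (k * (k + 1)) * 2 := by
      rw [Fintype.card_prod, FRE_card, ZMod.card]
    have c2 : (univ : Finset (Es k (tw k n))).toList.length = tw k n ^ k * (k * (k + 1)) := by
      rw [Finset.length_toList, Finset.card_univ, FRE_card]
    rw [c1, c2]
    simp only [Polynomial.eval_add, Polynomial.eval_mul, Polynomial.eval_X, Polynomial.eval_C, Polynomial.eval_pow,
      Polynomial.eval_one, Polynomial.eval_ofNat]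
    have e1 := FRE_tw_pow k n
    have e2 := FRE_tw k n
    have e3 : tw k n ^ k * (k * (k + 1)) * 2 * (2 ^ 2 ^ k + 1) ≤ n * (k * (k + 1) * 2 * (2 ^ 2 ^ k + 1)) := by
      rw [mul_assoc, mul_assoc, ← mul_assoc (k * (k + 1))]
      exact Nat.mul_le_mul_right _ e1
    have e4 : (tw k n ^ k * (k * (k + 1)) + 1) *
        (n + tw k n ^ k * (k * (k + 1)) * 2 + 2 ^ 15 * (2 * (tw k n + 1) ^ 2)) ≤
        (n * (k * (k + 1)) + 1) * (n + n * (k * (k + 1)) * 2 + 2 ^ 15 * (2 * (n + 1) ^ 2)) := by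
      gcongr
    omega
  · have e1 : (fun i => F (u i) x) = nf P (frs cr P x (univ : Finset (Es k (tw k n))).toList) x :=
      funext fun i => h5 i x
    rw [hC2, hw2, hC, e1]
    exact hNFS k P n _ x

end Pool.Agent.SGK
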