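import Pool.Agent.helper45.SGK.Spec

/-!
# Project SGK (MP_069684_lc): the classification from the rows
-/

set_option autoImplicit false

namespace Pool.Agent.SGK

open Finset Pool.Agent.helper38.Neg Pool.Agent.helper55.NT
open Pool.Agent.SGC (Sg SCirc Ext Mv hw RN Solv stA stB)

theorem Fin_inP (hCON : Pool.Agent.SGC.CON_stmt) (k : ℕ) [NeZero k] (V : (n : ℕ) → Submodule (ZMod 2) (Sg (tw k n)))
    (A : Lang) (h : SymPoly V A) : InPPoly A := by
  obtain ⟨p, hp⟩ := h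
  refine ⟨p * (8 * (p + 2) ^ 2), fun n => ?_⟩
  obtain ⟨s, hs, C, -, hC⟩ := hp n
  obtain ⟨s', hs', C', o', h'⟩ := hCON n s C
  refine ⟨s', hs'.trans ?_, C', o', fun x => by rw [h', hC]⟩
  simp only [Polynomial.eval_mul, Polynomial.eval_add, Polynomial.eval_pow, Polynomial.eval_ofNat]
  gcongr

theorem Fin_up (hSMK : SMK_stmt) (k : ℕ) [NeZero k] (V : (n : ℕ) → Submodule (ZMod 2) (Sg (tw k n)))
    (q : Polynomial ℕ) (hq : ∀ n, Nat.card (V n) ≤ q.eval n) (A : Lang) (hA : InPPoly A)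
    (hI : ∀ n, Inva (V n) (A n)) : SymPoly V A := by
  obtain ⟨p, hp⟩ := hA
  refine ⟨Polynomial.X + q * p + 1, fun n => ?_⟩
  obtain ⟨s, hs, C, o, hC⟩ := hp n
  obtain ⟨s', hs', C', h1, h2⟩ := hSMK k n s (V n) C o (A n) hC (hI n)
  refine ⟨s', hs'.trans ?_, C', h1, h2⟩
  simp only [Polynomial.eval_mul, Polynomial.eval_add, Polynomial.eval_X, Polynomial.eval_one]
  have := Nat.mul_le_mul (hq n) hs
  omega

theorem Fin_card (hLBK : LBK_stmt) (k : ℕ) [NeZero k] (P : Finset (Wd k)) (hP : ¬ Rigid P)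
    (V : (n : ℕ) → Submodule (ZMod 2) (Sg (tw k n))) (h : SymPoly V (SAT k P)) :
    ∃ q : Polynomial ℕ, ∀ n, Nat.card (V n) ≤ q.eval n := by
  obtain ⟨p, hp⟩ := h
  refine ⟨(p + 2) ^ 241, fun n => ?_⟩
  obtain ⟨s, hs, C, h1, h2⟩ := hp n
  refine (hLBK k P hP n s (V n) C h1 h2).trans ?_
  simp only [Polynomial.eval_add, Polynomial.eval_pow, Polynomial.eval_ofNat]
  gcongr

/-- Intersections of translates of a set closed under majority are closed under majority. -/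
theorem Fin_rigid {k : ℕ} (P : Finset (Wd k)) (h : MajClosed P) : Rigid P := by
  intro A _ a ha b hb c hc
  simp only [tr, mem_filter, mem_univ, true_and] at ha hb hc ⊢
  intro d hd
  have h1 := h _ (ha d hd) _ (hb d hd) _ (hc d hd)
  have h2 : maj3 (a + d) (b + d) (c + d) = maj3 a b c + d := by
    funext j
    have h3 : ∀ x y z u : ZMod 2,
        (x + u) * (y + u) + (y + u) * (z + u) + (z + u) * (x + u) = x * y + y * z + z * x + u := by decide
    exact h3 _ _ _ _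
  rwa [h2] at h1

theorem Fin_not_rigid {k : ℕ} (P : Finset (Wd k)) (h : AffClosed P) (h' : ¬ MajClosed P) : ¬ Rigid P := by
  intro hR
  have h1 : tr P {0} = P := by
    ext z
    simp [tr]
  have h2 := hR {0}
  rw [h1] at h2
  exact h' (h2 h)

/-- Complete problems. -/
theorem Fin_hard (hGDT : GDT_stmt) (hRDC : RDC_stmt) (hTSC : Pool.Agent.SGC.TSC_stmt) (k : ℕ) [NeZero k]
    (P : Finset (Wd k)) (h1 : ¬ MajClosed P) (h2 : ¬ AffClosed P) (h : InPPoly (SAT k P)) :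
    ∀ A, InNPPoly A → InPPoly A := by
  obtain ⟨Z, K, hK⟩ := hGDT k P h1 h2
  exact hTSC (hRDC k Z P K hK h)

/-- The classification. -/
theorem Fin_class (hFLK : FLK_stmt) (hSMK : SMK_stmt) (hLBK : LBK_stmt) (hFRE : FRE_stmt) (hSNK : SNK_stmt)
    (hAFK : AFK_stmt) (hMAK : MAK_stmt) (hGDT : GDT_stmt) (hRDC : RDC_stmt) (hCON : Pool.Agent.SGC.CON_stmt)
    (hTSC : Pool.Agent.SGC.TSC_stmt) (k : ℕ) [NeZero k] (P : Finset (Wd k))
    (V : (n : ℕ) → Submodule (ZMod 2) (Sg (tw k n))) :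
    (MajClosed P → SymPoly V (SAT k P)) ∧
    (¬ MajClosed P → AffClosed P →
      (SymPoly V (SAT k P) ↔ ∃ q : Polynomial ℕ, ∀ n, Nat.card (V n) ≤ q.eval n)) ∧
    (¬ MajClosed P → ¬ AffClosed P → Rigid P → (SymPoly V (SAT k P) ↔ ∀ A, InNPPoly A → InPPoly A)) ∧
    (¬ MajClosed P → ¬ AffClosed P → ¬ Rigid P → (SymPoly V (SAT k P) ↔
      (∀ A, InNPPoly A → InPPoly A) ∧ ∃ q : Polynomial ℕ, ∀ n, Nat.card (V n) ≤ q.eval n)) := by
  have hI : ∀ n, Inva (V n) (SAT k P n) := fun n => (hFLK k n).2.2.2 (V n) P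
  refine ⟨fun h => hFRE k P (Fin_rigid P h) (hMAK k P h) V, fun h1 h2 => ⟨?_, ?_⟩, fun h1 h2 h3 => ⟨?_, ?_⟩,
    fun h1 h2 h3 => ⟨?_, ?_⟩⟩
  · exact Fin_card hLBK k P (Fin_not_rigid P h2 h1) V
  · rintro ⟨q, hq⟩
    exact Fin_up hSMK k V q hq _ (hAFK k P h2) hI
  · intro h
    exact Fin_hard hGDT hRDC hTSC k P h1 h2 (Fin_inP hCON k V _ h)
  · intro h
    exact hFRE k P h3 (h _ (hSNK k P)) V
  · intro h
    exact ⟨Fin_hard hGDT hRDC hTSC k P h1 h2 (Fin_inP hCON k V _ h), Fin_card hLBK k P h3 V h⟩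
  · rintro ⟨h, q, hq⟩
    exact Fin_up hSMK k V q hq _ (h _ (hSNK k P)) hI

end Pool.Agent.SGK
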