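import Pool.Agent.helper45.SGK.Spec

set_option autoImplicit false

namespace Pool.Agent.SGK

open Finset Pool.Agent.helper38.Neg Pool.Agent.helper55.NT
open Pool.Agent.SGC (Sg SCirc Ext Mv hw RN Solv stA stB)

/-- The set of the allowed values on the places. -/
abbrev GDT_T : Type := {τ : Fin 4 → ZMod 2 // ∃ l : Fin 3, τ l.castSucc + τ 3 = 0}

/-- The zero element. -/
def GDT_o : GDT_T := ⟨0, 0, by decide⟩

instance GDT_ne : Nonempty GDT_T := ⟨GDT_o⟩

/-- The vector of a place. -/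
def GDT_y (l : Fin 4) : GDT_T → ZMod 2 := fun τ => τ.1 l

theorem GDT_inj : ∀ l m : Fin 4,
    (∀ τ : Fin 4 → ZMod 2, (∃ i : Fin 3, τ i.castSucc + τ 3 = 0) → τ l = τ m) → l = m := by decide

theorem GDT_y_inj {l m : Fin 4} (h : GDT_y l = GDT_y m) : l = m :=
  GDT_inj l m fun τ hτ => congrFun h ⟨τ, hτ⟩

/-- The representative of the pair. -/
def GDT_rep (y : GDT_T → ZMod 2) : GDT_T → ZMod 2 := fun τ => y τ + y GDT_o

theorem GDT_rep_y (l : Fin 4) : GDT_rep (GDT_y l) = GDT_y l := by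
  funext τ
  show τ.1 l + (0 : ZMod 2) = τ.1 l
  rw [add_zero]

theorem GDT_rep_add (y : GDT_T → ZMod 2) : GDT_rep (y + 1) = GDT_rep y := by
  funext τ
  show y τ + 1 + (y GDT_o + 1) = y τ + y GDT_o
  have h : ∀ u v : ZMod 2, u + 1 + (v + 1) = u + v := by decide
  exact h _ _

open Classical in
/-- The place of a vector. -/
noncomputable def GDT_plc {Z : ℕ} (e : (GDT_T → ZMod 2) → Fin Z) (y : GDT_T → ZMod 2) : Fin 4 ⊕ Fin Z :=
  if h : ∃ l, GDT_rep y = GDT_y l then Sum.inl h.choose else Sum.inr (e (GDT_rep y))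

theorem GDT_plc_y {Z : ℕ} (e : (GDT_T → ZMod 2) → Fin Z) (l : Fin 4) : GDT_plc e (GDT_y l) = Sum.inl l := by
  have h : ∃ m, GDT_rep (GDT_y l) = GDT_y m := ⟨l, GDT_rep_y l⟩
  unfold GDT_plc
  rw [dif_pos h]
  exact congrArg Sum.inl (GDT_y_inj ((GDT_rep_y l).symm.trans h.choose_spec)).symm

theorem GDT_plc_add {Z : ℕ} (e : (GDT_T → ZMod 2) → Fin Z) (y : GDT_T → ZMod 2) :
    GDT_plc e (y + 1) = GDT_plc e y := by
  unfold GDT_plc
  simp only [GDT_rep_add]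

theorem GDT (hCL3 : CL3_stmt) : GDT_stmt := by
  classical
  intro k P hM hA
  obtain ⟨Z, ⟨eZ⟩⟩ : ∃ Z, Nonempty ((GDT_T → ZMod 2) ≃ Fin Z) := ⟨_, ⟨Fintype.equivFin _⟩⟩
  refine ⟨Z, (univ : Finset (GDT_T → {w : Wd k // w ∈ P})).image fun p =>
    (fun j => GDT_plc eZ (fun τ => (p τ).1 j), fun j => (p GDT_o).1 j), fun β => ⟨?_, ?_⟩⟩
  · rintro ⟨ζ, hζ⟩
    obtain ⟨i, c, hf⟩ := hCL3 k P hM hA GDT_T (fun y => Sum.elim β ζ (GDT_plc eZ y) + y GDT_o)
      (by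
        intro y
        show Sum.elim β ζ (GDT_plc eZ (y + 1)) + (y GDT_o + 1) = _
        rw [GDT_plc_add, ← add_assoc])
      (by
        intro p hp
        exact hζ _ (mem_image.2 ⟨fun τ => ⟨p τ, hp τ⟩, mem_univ _, rfl⟩))
    have h1 : ∀ l : Fin 4, β l = i.1 l + c := by
      intro l
      have h2 : Sum.elim β ζ (GDT_plc eZ (GDT_y l)) + GDT_y l GDT_o = GDT_y l i + c := hf (GDT_y l)
      rw [GDT_plc_y] at h2
      have h3 : GDT_y l GDT_o = 0 := rfl
      rw [h3, add_zero] at h2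
      exact h2
    obtain ⟨l, hl⟩ := i.2
    refine ⟨l, ?_⟩
    rw [h1, h1]
    have h : ∀ u v c : ZMod 2, u + v = 0 → u + c + (v + c) = 0 := by decide
    exact h _ _ _ hl
  · intro hβ
    refine ⟨fun z => eZ.symm z ⟨β, hβ⟩, ?_⟩
    intro κ hκ
    obtain ⟨p, -, rfl⟩ := mem_image.1 hκ
    have hy : ∀ y : GDT_T → ZMod 2,
        Sum.elim β (fun z => eZ.symm z ⟨β, hβ⟩) (GDT_plc eZ y) + y GDT_o = y ⟨β, hβ⟩ := by
      intro y
      have h0 : ∀ u v : ZMod 2, u + v + v = u := by decide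
      by_cases h : ∃ l, GDT_rep y = GDT_y l
      · have e1 : GDT_plc eZ y = Sum.inl h.choose := by
          unfold GDT_plc
          rw [dif_pos h]
        have e2 : β h.choose = GDT_rep y ⟨β, hβ⟩ := (congrFun h.choose_spec ⟨β, hβ⟩).symm
        rw [e1]
        show β h.choose + y GDT_o = _
        rw [e2]
        exact h0 _ _
      · have e1 : GDT_plc eZ y = Sum.inr (eZ (GDT_rep y)) := by
          unfold GDT_plc
          rw [dif_neg h]
        rw [e1]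
        show eZ.symm (eZ (GDT_rep y)) ⟨β, hβ⟩ + y GDT_o = _
        rw [Equiv.symm_apply_apply]
        exact h0 _ _
    have h1 : (fun j => Sum.elim β (fun z => eZ.symm z ⟨β, hβ⟩) (GDT_plc eZ fun τ => (p τ).1 j) +
        (p GDT_o).1 j) = (p ⟨β, hβ⟩).1 := by
      funext j
      exact hy fun τ => (p τ).1 j
    show (fun j => Sum.elim β (fun z => eZ.symm z ⟨β, hβ⟩) (GDT_plc eZ fun τ => (p τ).1 j) +
        (p GDT_o).1 j) ∈ P
    rw [h1]
    exact (p ⟨β, hβ⟩).2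

end Pool.Agent.SGK
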