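import Pool.Agent.helper45.SGK.Spec

/-!
# Row sk:INK (MP_069684_lc)
-/

set_option autoImplicit false

namespace Pool.Agent.SGK

open Finset Pool.Agent.helper38.Neg Pool.Agent.helper55.NT
open Pool.Agent.SGC (Sg SCirc Ext Mv hw RN Solv stA stB)

theorem INK_hit {k : ℕ} {P : Finset (Wd k)} (G : Gad P) (m : Fin 4) (hm : m ≠ 3) : ∃ j, G.q j = m := by
  by_contra hne
  push Not at hne
  apply G.zero
  have h := G.mem m hm
  have h2 : (fun j => if G.q j = m then (1 : ZMod 2) else 0) = 0 := by
    funext j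
    rw [if_neg (hne j)]
    rfl
  rw [h2] at h
  exact h

theorem INK : INK_stmt := by
  intro k _ n r P G v w p γ f b hp hf
  have key : ∀ (e : Fin r) (a : Wd k), ps (v4 (v e) w ∘ G.q, a) = p → e ≠ f := by
    rintro e a h rfl
    apply hf
    rw [← h, gl_ps] at hp
    have h1 := congrArg Prod.snd (ps_injective hp)
    have h2 : ∀ m : Fin 4, m ≠ 3 → γ (v4 (v e) w m) = 0 := by
      intro m hm
      obtain ⟨j, hj⟩ := INK_hit G m hm
      have h3 := congrFun h1 j
      simp only [fc, Function.comp_apply, hj] at h3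
      exact add_eq_left.1 h3
    unfold Mv
    rw [Fin.sum_univ_three]
    have e0 := h2 0 (by decide)
    have e1 := h2 1 (by decide)
    have e2 := h2 2 (by decide)
    simp only [v4, Matrix.cons_val_zero, Matrix.cons_val_one] at e0 e1
    have e2' : γ (v e 2) = 0 := e2
    rw [e0, e1, e2']
    decide
  unfold Gad.inst
  rw [decide_eq_decide]
  constructor
  · rintro ⟨e, a, h1, h2⟩
    refine ⟨e, a, h1, ?_⟩
    rwa [Pi.add_apply, Pi.single_eq_of_ne (key e a h1), add_zero] at h2
  · rintro ⟨e, a, h1, h2⟩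
    refine ⟨e, a, h1, ?_⟩
    rwa [Pi.add_apply, Pi.single_eq_of_ne (key e a h1), add_zero]

end Pool.Agent.SGK
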