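import Pool.Agent.helper45.SGK.Spec

set_option autoImplicit false

namespace Pool.Agent.SGK

open Finset Pool.Agent.helper38.Neg Pool.Agent.helper55.NT
open Pool.Agent.SGC (Sg SCirc Ext Mv hw RN Solv stA stB)

theorem MAK_or {n : ℕ} {ι : Type} (F : Set (Fn n)) (u : ι → Fn n) (S : Finset ι) (h : ∀ i ∈ S, u i ∈ F) :
    ∃ g : Fn n, RN F (S.card + 1) {g} ∧ ∀ x, g x = true ↔ ∃ i ∈ S, u i x = true := by
  classical
  induction S using Finset.induction_on with
  | empty =>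
    refine ⟨fun _ => false, Rel.mono (Rel.const F false) le_rfl le_rfl (by simp) (by simp), fun x => ?_⟩
    simp
  | @insert a S ha ih =>
    obtain ⟨g, hg1, hg2⟩ := ih fun i hi => h i (Finset.mem_insert_of_mem hi)
    have h3 : RN (F ∪ {g}) 1 {fun x => u a x || g x} :=
      Rel.mono (Rel.or (u := u a) (v := g) (Or.inl (h a (Finset.mem_insert_self _ _))) (Or.inr rfl))
        le_rfl le_rfl le_rfl (by omega)
    refine ⟨fun x => u a x || g x, RN.mono (RN.trans' hg1 h3) le_rfl le_rfl ?_, fun x => ?_⟩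
    · rw [Finset.card_insert_of_notMem ha]
    · rw [Bool.or_eq_true, hg2]
      simp only [Finset.mem_insert, exists_eq_or_imp]

/-- The pair of literals is forbidden. -/
def MAK_N (k : ℕ) [NeZero k] (P : Finset (Wd k)) (n : ℕ) (x : Fin n → Bool) (u v : Fin (tw k n) × ZMod 2) : Prop :=
  ∃ c : Cl k (tw k n), (∃ j j', c.1 j = u.1 ∧ c.1 j' = v.1 ∧ ¬ ∃ s ∈ P, s j = u.2 + c.2 j ∧ s j' = v.2 + c.2 j') ∧
    x (ps c) = true

theorem MAK_symm (k : ℕ) [NeZero k] (P : Finset (Wd k)) (n : ℕ) (x : Fin n → Bool) (u v : Fin (tw k n) × ZMod 2)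
    (h : MAK_N k P n x u v) : MAK_N k P n x v u := by
  obtain ⟨c, ⟨j, j', h1, h2, h3⟩, h4⟩ := h
  exact ⟨c, ⟨j', j, h2, h1, fun ⟨s, hs, a, b⟩ => h3 ⟨s, hs, b, a⟩⟩, h4⟩

theorem MAK_sat (hBPK : BPK_stmt) (k : ℕ) [NeZero k] (P : Finset (Wd k)) (hP : MajClosed P) (n : ℕ) (x : Fin n → Bool) :
    (∃ α : Sg (tw k n), ∀ u v, MAK_N k P n x u v → ¬ (α u.1 = u.2 ∧ α v.1 = v.2)) ↔ SAT k P n x := by
  constructor
  · rintro ⟨α, hα⟩
    refine ⟨α, fun c hc => hBPK k P _ hP fun j j' => ?_⟩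
    by_contra h
    exact hα (c.1 j, α (c.1 j)) (c.1 j', α (c.1 j')) ⟨c, ⟨j, j', rfl, rfl, h⟩, hc⟩ ⟨rfl, rfl⟩
  · rintro ⟨α, hα⟩
    refine ⟨α, ?_⟩
    rintro u v ⟨c, ⟨j, j', h1, h2, h3⟩, h4⟩ ⟨h5, h6⟩
    refine h3 ⟨_, hα c h4, ?_, ?_⟩
    · show α (c.1 j) + c.2 j = u.2 + c.2 j
      rw [h1, h5]
    · show α (c.1 j') + c.2 j' = v.2 + c.2 j'
      rw [h2, h6]

theorem MAK_lift {A B : Type} (e : A ≃ B) (r : A → A → Prop) (a b : A) :
    Relation.ReflTransGen (fun u v : B => r (e.symm u) (e.symm v)) (e a) (e b) ↔ Relation.ReflTransGen r a b := by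
  constructor
  · intro h
    have h1 : Relation.ReflTransGen r (e.symm (e a)) (e.symm (e b)) :=
      Relation.ReflTransGen.lift (p := r) e.symm (fun _ _ h => h) _ _ h
    rw [Equiv.symm_apply_apply, Equiv.symm_apply_apply] at h1
    exact h1
  · intro h
    refine Relation.ReflTransGen.lift e (fun u v h => ?_) _ _ h
    show r (e.symm (e u)) (e.symm (e v))
    rw [Equiv.symm_apply_apply, Equiv.symm_apply_apply]
    exact h

theorem MAK (hBPK : BPK_stmt) (hTSA : TSA_stmt) (hTRC : TRC_stmt) : MAK_stmt := by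
  classical
  intro k _ P hP
  refine ⟨(2 * Polynomial.X) ^ 2 * (Polynomial.X + 1) + 8 * (2 * Polynomial.X + 2) ^ 4 + 2 * Polynomial.X + 2,
    fun n => ?_⟩
  have ht : tw k n ≤ n := Nat.findGreatest_le n
  have hM : Fintype.card (Fin (tw k n) × ZMod 2) = 2 * tw k n := by
    rw [Fintype.card_prod, Fintype.card_fin, ZMod.card]
    omega
  obtain ⟨e⟩ : Nonempty (Fin (tw k n) × ZMod 2 ≃ Fin (2 * tw k n)) := ⟨Fintype.equivFinOfCardEq hM⟩
  -- the forbidden pairs
  have h1 : ∀ q : Fin (2 * tw k n) × Fin (2 * tw k n), ∃ g : Fn n, RN ∅ (n + 1) {g} ∧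
      ∀ x, g x = true ↔ MAK_N k P n x (e.symm q.1) ((e.symm q.2).1, (e.symm q.2).2 + 1) := by
    intro q
    obtain ⟨g, hg1, hg2⟩ := MAK_or (n := n) (Set.range fun (i : Fin n) (x : Fin n → Bool) => x i)
      (fun (i : Fin n) (x : Fin n → Bool) => x i)
      ((univ.filter fun c : Cl k (tw k n) => ∃ j j', c.1 j = (e.symm q.1).1 ∧ c.1 j' = (e.symm q.2).1 ∧
        ¬ ∃ s ∈ P, s j = (e.symm q.1).2 + c.2 j ∧ s j' = (e.symm q.2).2 + 1 + c.2 j').image ps)
      (fun i _ => ⟨i, rfl⟩)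
    refine ⟨g, ?_, fun x => ?_⟩
    · have h2 : RN ∅ 0 (Set.range fun (i : Fin n) (x : Fin n → Bool) => x i) := by
        have h3 := RN.biUnion (F := (∅ : Set (Fn n))) (m := 0) (univ : Finset (Fin n))
          (fun i => {fun x => x i}) fun i _ => Rel.var ∅ i
        refine RN.mono h3 le_rfl ?_ (by simp)
        rintro g ⟨i, rfl⟩
        simp only [Set.mem_iUnion, exists_prop]
        exact ⟨i, mem_univ i, rfl⟩
      refine RN.mono (RN.trans' h2 (RN.mono hg1 Set.subset_union_right le_rfl le_rfl)) le_rfl le_rfl ?_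
      have h4 := Finset.card_le_univ ((univ.filter fun c : Cl k (tw k n) => ∃ j j', c.1 j = (e.symm q.1).1 ∧
        c.1 j' = (e.symm q.2).1 ∧ ¬ ∃ s ∈ P, s j = (e.symm q.1).2 + c.2 j ∧
        s j' = (e.symm q.2).2 + 1 + c.2 j').image (ps (n := n)))
      rw [Fintype.card_fin] at h4
      omega
    · rw [hg2]
      constructor
      · rintro ⟨i, hi, hx⟩
        obtain ⟨c, hc, rfl⟩ := mem_image.1 hi
        exact ⟨c, (mem_filter.1 hc).2, hx⟩
      · rintro ⟨c, hc, hx⟩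
        exact ⟨ps c, mem_image.2 ⟨c, mem_filter.2 ⟨mem_univ _, hc⟩, rfl⟩, hx⟩
  choose g hg1 hg2 using h1
  have h2 : RN ∅ ((2 * tw k n) * (2 * tw k n) * (n + 1))
      (Set.range fun q : Fin (2 * tw k n) × Fin (2 * tw k n) => g (q.1, q.2)) := by
    have h3 := RN.biUnion (F := (∅ : Set (Fn n))) (m := n + 1)
      (univ : Finset (Fin (2 * tw k n) × Fin (2 * tw k n))) (fun q => {g q}) fun q _ => hg1 q
    rw [card_univ, Fintype.card_prod, Fintype.card_fin] at h3
    refine RN.mono h3 le_rfl ?_ le_rfl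
    rintro g' ⟨q, rfl⟩
    simp only [Set.mem_iUnion, exists_prop]
    exact ⟨q, mem_univ q, rfl⟩
  have h3 := hTRC n (2 * tw k n) fun a b => g (a, b)
  have h4 := RN.trans' h2 (RN.mono h3 Set.subset_union_right le_rfl le_rfl)
  -- the conjunctions
  obtain ⟨rr, hrr⟩ : ∃ rr : Fin (2 * tw k n) × Fin (2 * tw k n) → Fn n, rr = fun (q : Fin (2 * tw k n) ×
      Fin (2 * tw k n)) (x : Fin n → Bool) =>
      decide (Relation.ReflTransGen (fun u v => g (u, v) x = true) q.1 q.2) := ⟨_, rfl⟩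
  rw [← hrr] at h4
  have h5 : RN (Set.range rr) (tw k n) (Set.range fun (q : Fin (tw k n)) (x : Fin n → Bool) =>
      rr (e (q, 0), e (q, 1)) x && rr (e (q, 1), e (q, 0)) x) := by
    have h6 := RN.biUnion (F := Set.range rr) (m := 1) (univ : Finset (Fin (tw k n)))
      (fun q => {fun x => rr (e (q, 0), e (q, 1)) x && rr (e (q, 1), e (q, 0)) x}) fun q _ =>
        Rel.mono (Rel.and (F := Set.range rr) (u := rr (e (q, 0), e (q, 1))) (v := rr (e (q, 1), e (q, 0)))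
          ⟨_, rfl⟩ ⟨_, rfl⟩)
          le_rfl le_rfl le_rfl (by omega)
    rw [card_univ, Fintype.card_fin, mul_one] at h6
    refine RN.mono h6 le_rfl ?_ le_rfl
    rintro g' ⟨q, rfl⟩
    simp only [Set.mem_iUnion, exists_prop]
    exact ⟨q, mem_univ q, rfl⟩
  obtain ⟨o, ho1, ho2⟩ := MAK_or (n := n) (Set.range fun (q : Fin (tw k n)) (x : Fin n → Bool) =>
      rr (e (q, 0), e (q, 1)) x && rr (e (q, 1), e (q, 0)) x) (fun (q : Fin (tw k n)) (x : Fin n → Bool) =>
      rr (e (q, 0), e (q, 1)) x && rr (e (q, 1), e (q, 0)) x) univ fun i _ => ⟨i, rfl⟩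
  have h6 := RN.trans' h4 (RN.mono h5 Set.subset_union_right le_rfl le_rfl)
  have h7 := RN.trans' h6 (RN.mono ho1 Set.subset_union_right le_rfl le_rfl)
  have h8 : RN (∅ ∪ {o}) 1 {fun x => !(o x)} :=
    Rel.not (u := o) (Or.inr rfl)
  have h9 := RN.trans' h7 h8
  obtain ⟨s, hs, C, o', hC⟩ := RN.toCircuit h9
  refine ⟨s, ?_, C, o', fun x => ?_⟩
  · rw [card_univ, Fintype.card_fin] at hs
    simp only [Polynomial.eval_add, Polynomial.eval_mul, Polynomial.eval_X, Polynomial.eval_pow,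
      Polynomial.eval_one, Polynomial.eval_ofNat]
    have b1 : 2 * tw k n * (2 * tw k n) * (n + 1) ≤ (2 * n) ^ 2 * (n + 1) := by
      rw [sq]
      gcongr
    have b2 : 8 * (2 * tw k n + 2) ^ 4 ≤ 8 * (2 * n + 2) ^ 4 := by
      gcongr
    omega
  · rw [hC, ← MAK_sat hBPK k P hP n x, hTSA (tw k n) (MAK_N k P n x) (MAK_symm k P n x)]
    rw [Bool.not_eq_true', ← Bool.not_eq_true, ho2]
    have key : ∀ a b, rr (e a, e b) x = true ↔ Relation.ReflTransGen
        (fun u v : Fin (tw k n) × ZMod 2 => MAK_N k P n x u (v.1, v.2 + 1)) a b := by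
      intro a b
      rw [hrr]
      show decide (Relation.ReflTransGen (fun u v => g (u, v) x = true) (e a) (e b)) = true ↔ _
      rw [decide_eq_true_iff]
      rw [← MAK_lift e (fun u v : Fin (tw k n) × ZMod 2 => MAK_N k P n x u (v.1, v.2 + 1)) a b]
      simp only [hg2]
    constructor
    · intro h q hq
      refine h ⟨q, mem_univ q, ?_⟩
      rw [Bool.and_eq_true, key, key]
      exact hq
    · rintro h ⟨q, -, hq⟩
      rw [Bool.and_eq_true, key, key] at hq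
      exact h q hq

end Pool.Agent.SGK
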