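import Pool.Agent.helper45.SGK.Spec
import Pool.Agent.helper84.SGC.TRN

/-!
# Row sk:TRK (MP_069684_lc)
-/

set_option autoImplicit false

namespace Pool.Agent.SGK

open Finset Pool.Agent.helper38.Neg Pool.Agent.helper55.NT
open Pool.Agent.SGC (Sg SCirc Ext Mv hw RN Solv stA stB)

theorem TRK : TRK_stmt := by
  intro k _ n W _ V C hC
  refine ⟨Pool.Agent.SGC.TRN_ren (Fintype.equivFin W) C, fun γ hγ => ?_, fun x => ?_⟩
  · obtain ⟨π, hπ⟩ := hC γ hγ
    exact ⟨_, Pool.Agent.SGC.TRN_ext (Fintype.equivFin W) C (gl γ) π hπ⟩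
  · exact Pool.Agent.SGC.TRN_val (Fintype.equivFin W) C x (C.rank C.out + 1) C.out (Nat.lt_succ_self _)

end Pool.Agent.SGK
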