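import Pool.Agent.helper45.SGC.All
import Pool.Agent.helper45.SGK.Fin
import Pool.Agent.helper45.SGK.Exa
import Pool.Agent.helper16.SGK.NFI
import Pool.Agent.helper18.SGK.LAB
import Pool.Agent.helper18.SGK.TSA
import Pool.Agent.helper85.SGK.GST
import Pool.Agent.helper25.SGK.AV0
import Pool.Agent.helper25.SGK.LED
import Pool.Agent.helper25.SGK.LST
import Pool.Agent.helper25.SGK.NFS
import Pool.Agent.helper25.SGK.STK
import Pool.Agent.helper27.SGK.AVG
import Pool.Agent.helper27.SGK.UFA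
import Pool.Agent.helper29.SGK.AVS
import Pool.Agent.helper33.SGK.AFS
import Pool.Agent.helper39.SGK.CL1
import Pool.Agent.helper41.SGK.EQK
import Pool.Agent.helper44.SGK.LBK
import Pool.Agent.helper45.SGK.AVO
import Pool.Agent.helper45.SGK.CRP
import Pool.Agent.helper45.SGK.FRE
import Pool.Agent.helper45.SGK.GDT
import Pool.Agent.helper45.SGK.INK
import Pool.Agent.helper45.SGK.MAK
import Pool.Agent.helper45.SGK.SMK
import Pool.Agent.helper45.SGK.TRK
import Pool.Agent.helper45.SGK.UFE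
import Pool.Agent.helper48.SGK.BPK
import Pool.Agent.helper48.SGK.CL2
import Pool.Agent.helper51.SGK.AVI
import Pool.Agent.helper51.SGK.ITR
import Pool.Agent.helper54.SGK.LNF
import Pool.Agent.helper55.SGK.AVL
import Pool.Agent.helper55.SGK.GAD
import Pool.Agent.helper55.SGK.RIG
import Pool.Agent.helper55.SGK.SEK
import Pool.Agent.helper55.SGK.SNK
import Pool.Agent.helper55.SGK.TRC
import Pool.Agent.helper69.SGK.RDS
import Pool.Agent.helper78.SGK.CL3
import Pool.Agent.helper78.SGK.GEL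
import Pool.Agent.helper89.SGK.AFK
import Pool.Agent.helper89.SGK.AVR
import Pool.Agent.helper90.SGK.FLK
import Pool.Agent.helper91.SGK.FRA
import Pool.Agent.helper91.SGK.RDC
import Pool.Agent.helper98.SGK.COK

/-!
# Project SGK (MP_069684_lc): the rows without hypotheses, and the theorem
-/

set_option autoImplicit false

namespace Pool.Agent.SGK

open Finset Pool.Agent.helper38.Neg Pool.Agent.helper55.NT
open Pool.Agent.SGC (Sg SCirc Ext Mv hw RN Solv stA stB)

theorem aSTK : STK_stmt := STK FLK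
theorem aSMK : SMK_stmt := SMK FLK Pool.Agent.SGC.DSC TRK
theorem aCOK : COK_stmt := COK Pool.Agent.SGC.EXV Pool.Agent.SGC.aSPN Pool.Agent.SGC.AVE
theorem aLBK : LBK_stmt := LBK aSTK aCOK GAD EQK INK SEK Pool.Agent.SGC.aVEX Pool.Agent.SGC.NUM
theorem aAVL : AVL_stmt := AVL AVI AVR AVS
theorem aAVG : AVG_stmt := AVG AVR AVS
theorem aAVO : AVO_stmt := AVO TRK
theorem aRIG : RIG_stmt := RIG BPK
theorem aFRA : FRA_stmt := FRA UFA UFE LAB
theorem aNFI : NFI_stmt := NFI aRIG LAB aFRA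
theorem aLED : LED_stmt := LED AV0 aAVL LAB
theorem aLST : LST_stmt := LST aAVL AVR aFRA
theorem aLNF : LNF_stmt := LNF aAVL AVS AVR aFRA aNFI
theorem aFRE : FRE_stmt := FRE CRP aLED aLST aLNF NFS aAVG aAVO
theorem aITR : ITR_stmt := ITR GEL GST
theorem aAFK : AFK_stmt := AFK aITR AFS
theorem aMAK : MAK_stmt := MAK BPK TSA TRC
theorem aCL3 : CL3_stmt := CL3 CL1 CL2
theorem aGDT : GDT_stmt := GDT aCL3
theorem aRDC : RDC_stmt := RDC RDS Pool.Agent.SGC.CMP

/-- The classification. -/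
theorem all_class (k : ℕ) [NeZero k] (P : Finset (Wd k)) (V : (n : ℕ) → Submodule (ZMod 2) (Sg (tw k n))) :
    (MajClosed P → SymPoly V (SAT k P)) ∧
    (¬ MajClosed P → AffClosed P →
      (SymPoly V (SAT k P) ↔ ∃ q : Polynomial ℕ, ∀ n, Nat.card (V n) ≤ q.eval n)) ∧
    (¬ MajClosed P → ¬ AffClosed P → Rigid P → (SymPoly V (SAT k P) ↔ ∀ A, InNPPoly A → InPPoly A)) ∧
    (¬ MajClosed P → ¬ AffClosed P → ¬ Rigid P → (SymPoly V (SAT k P) ↔
      (∀ A, InNPPoly A → InPPoly A) ∧ ∃ q : Polynomial ℕ, ∀ n, Nat.card (V n) ≤ q.eval n)) :=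
  Fin_class FLK aSMK aLBK aFRE SNK aAFK aMAK aGDT aRDC Pool.Agent.SGC.aCON Pool.Agent.SGC.aTSC k P V

/-- The lower bound. -/
theorem all_low (k : ℕ) [NeZero k] (P : Finset (Wd k)) (hP : ¬ Rigid P) (n s : ℕ)
    (V : Submodule (ZMod 2) (Sg (tw k n))) (C : SCirc n (Fin s)) (hV : Symm V C)
    (hC : ∀ x, C.val x C.out = true ↔ SAT k P n x) : Nat.card V ≤ (s + 2) ^ 241 := aLBK k P hP n s V C hV hC

end Pool.Agent.SGK
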