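import Pool.Agent.helper45.SGC.Pub

/-!
# Project SGK (MP_069684_lc): all Boolean constraint satisfaction problems and circuits which respect sign changes. The definitions of the
theorem
-/

set_option autoImplicit false

namespace Pool.Agent.SGK

open Finset Pool.Agent.helper38.Neg Pool.Agent.helper55.NT
open Pool.Agent.SGC (Sg SCirc Ext)

variable {k : ℕ}

/-- Words of `k` bits. -/
abbrev Wd (k : ℕ) : Type := Fin k → ZMod 2

/-! ### Instances -/

/-- The number of variables for words of length `n`: the largest `t` with `t ^ k * 2 ^ k ≤ n`. -/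
def tw (k n : ℕ) : ℕ := Nat.findGreatest (fun t => t ^ k * 2 ^ k ≤ n) n

theorem tw_le (k n : ℕ) [NeZero k] : tw k n ^ k * 2 ^ k ≤ n :=
  Nat.findGreatest_spec (P := fun t => t ^ k * 2 ^ k ≤ n) (m := 0) (Nat.zero_le _)
    (by simp [NeZero.ne k])

/-- A constraint: variables `c.1 j` and signs `c.2 j`, `j : Fin k`. It says: the word `j ↦ α (c.1 j) + c.2 j` lies in `P`. -/
abbrev Cl (k t : ℕ) : Type := (Fin k → Fin t) × Wd k

/-- The position of a constraint. -/
def ps {n : ℕ} [NeZero k] (c : Cl k (tw k n)) : Fin n :=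
  Fin.castLE (tw_le k n)
    (finProdFinEquiv (finFunctionFinEquiv c.1, finFunctionFinEquiv (n := k) (m := 2) c.2))

theorem ps_injective {n : ℕ} [NeZero k] : Function.Injective (ps : Cl k (tw k n) → Fin n) := by
  rintro ⟨a, b⟩ ⟨a', b'⟩ h
  have h1 := finProdFinEquiv.injective (Fin.castLE_injective _ h)
  have h2 := finFunctionFinEquiv.injective (congrArg Prod.fst h1)
  have h3 := finFunctionFinEquiv.injective (congrArg Prod.snd h1)
  exact Prod.ext h2 h3

/-- The sign change `γ` on constraints. -/
def fc {t : ℕ} (γ : Sg t) (c : Cl k t) : Cl k t := (c.1, fun j => c.2 j + γ (c.1 j))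

open Classical in
/-- The sign change `γ` on the positions. -/
noncomputable def gl {n : ℕ} [NeZero k] (γ : Sg (tw k n)) (p : Fin n) : Fin n :=
  if h : ∃ c : Cl k (tw k n), ps c = p then ps (fc γ h.choose) else p

theorem gl_ps {n : ℕ} [NeZero k] (γ : Sg (tw k n)) (c : Cl k (tw k n)) : gl γ (ps c) = ps (fc γ c) := by
  have h : ∃ c' : Cl k (tw k n), ps c' = ps c := ⟨c, rfl⟩
  have h1 : h.choose = c := ps_injective h.choose_spec
  unfold gl
  rw [dif_pos h, h1]

theorem gl_of_not {n : ℕ} [NeZero k] (γ : Sg (tw k n)) (p : Fin n) (h : ∀ c : Cl k (tw k n), ps c ≠ p) :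
    gl γ p = p := by
  unfold gl
  rw [dif_neg]
  rintro ⟨c, hc⟩
  exact h c hc

theorem fc_fc {t : ℕ} (γ : Sg t) (c : Cl k t) : fc γ (fc γ c) = c := by
  refine Prod.ext rfl (funext fun j => ?_)
  have h : ∀ u v : ZMod 2, u + v + v = u := by decide
  exact h _ _

theorem gl_gl {n : ℕ} [NeZero k] (γ : Sg (tw k n)) (p : Fin n) : gl γ (gl γ p) = p := by
  by_cases h : ∃ c : Cl k (tw k n), ps c = p
  · obtain ⟨c, rfl⟩ := h
    rw [gl_ps, gl_ps, fc_fc]
  · have h' : ∀ c : Cl k (tw k n), ps c ≠ p := fun c hc => h ⟨c, hc⟩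
    rw [gl_of_not γ p h', gl_of_not γ p h']

/-- The constraint satisfaction problem of `P` (constraints: `P` of `k` literals, i.e. variables or negated variables,
repetitions allowed): some assignment satisfies all constraints which are present. -/
def SAT (k : ℕ) [NeZero k] (P : Finset (Wd k)) : Lang := fun n x =>
  ∃ α : Sg (tw k n), ∀ c : Cl k (tw k n), x (ps c) = true → (fun j => α (c.1 j) + c.2 j) ∈ P

/-! ### Circuits which respect sign changes -/

/-- The circuit respects the sign changes in `V`: each of them extends to an automorphism. -/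
def Symm {n : ℕ} [NeZero k] {W : Type} (V : Submodule (ZMod 2) (Sg (tw k n))) (C : SCirc n W) : Prop :=
  ∀ γ ∈ V, ∃ π : Equiv.Perm W, Ext C (gl γ) π

/-- The property `f` of the inputs is invariant under the sign changes in `V`. -/
def Inva {n : ℕ} [NeZero k] (V : Submodule (ZMod 2) (Sg (tw k n))) (f : (Fin n → Bool) → Prop) : Prop :=
  ∀ γ ∈ V, ∀ x, f (x ∘ gl γ) ↔ f x

/-- Circuits of polynomial size which respect the sign changes in `V n`. -/
def SymPoly [NeZero k] (V : (n : ℕ) → Submodule (ZMod 2) (Sg (tw k n))) (A : Lang) : Prop :=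
  ∃ p : Polynomial ℕ, ∀ n, ∃ s ≤ p.eval n, ∃ C : SCirc n (Fin s), Symm (V n) C ∧
    ∀ x, C.val x C.out = true ↔ A n x

/-! ### Majority, affine sets, rigidity -/

/-- The coordinatewise majority. -/
def maj3 (a b c : Wd k) : Wd k := fun j => a j * b j + b j * c j + c j * a j

/-- Closed under majority. -/
def MajClosed (S : Finset (Wd k)) : Prop := ∀ a ∈ S, ∀ b ∈ S, ∀ c ∈ S, maj3 a b c ∈ S

/-- Empty or an affine subspace. -/
def AffClosed (S : Finset (Wd k)) : Prop := ∀ a ∈ S, ∀ b ∈ S, ∀ c ∈ S, a + b + c ∈ S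

/-- The intersection of the translates `P + a`, `a ∈ A`. -/
def tr (P A : Finset (Wd k)) : Finset (Wd k) := univ.filter fun z => ∀ a ∈ A, z + a ∈ P

/-- `P` is rigid: every intersection of translates of `P` which is affine is closed under majority. -/
def Rigid (P : Finset (Wd k)) : Prop := ∀ A : Finset (Wd k), AffClosed (tr P A) → MajClosed (tr P A)

/-! ### Examples -/

/-- `k`-SAT: some literal is true. -/
def kSat (k : ℕ) : Finset (Wd k) := univ.erase 0

/-- `k`-XOR: an odd number of literals is true. -/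
def kXor (k : ℕ) : Finset (Wd k) := univ.filter fun z => ∑ j, z j = 1

/-- Exactly one literal is true. -/
def oneIn (k : ℕ) : Finset (Wd k) := univ.image fun j => Pi.single j 1

/-- The three literals are not all equal. -/
def nae3 : Finset (Wd 3) := (univ.erase 0).erase 1

end Pool.Agent.SGK
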