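import Pool.Agent.helper45.SGC.Spec
import Pool.Agent.helper45.SGK.Pub

/-!
# Project SGK (MP_069684_lc): all Boolean constraint satisfaction problems and circuits which respect sign changes. Definitions
-/

set_option autoImplicit false

namespace Pool.Agent.SGK

open Finset Pool.Agent.helper38.Neg Pool.Agent.helper55.NT
open Pool.Agent.SGC (Sg SCirc Ext Mv hw RN Solv stA stB)

variable {k : ℕ}

/-! ### The gadget of a predicate which is not rigid -/

/-- An affine intersection `tr P A` of translates and a map `q` of the coordinates to four classes such that the indicators of the classes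
0, 1, 2 are in `tr P A` and 0 is not. -/
structure Gad (P : Finset (Wd k)) : Type where
  A : Finset (Wd k)
  aff : AffClosed (tr P A)
  q : Fin k → Fin 4
  mem : ∀ m : Fin 4, m ≠ 3 → (fun j => if q j = m then 1 else 0) ∈ tr P A
  zero : (0 : Wd k) ∉ tr P A

/-- The indicator of the class 0, times `β`. -/
def Gad.e0 {P : Finset (Wd k)} (G : Gad P) (β : ZMod 2) : Wd k := fun j => if G.q j = 0 then β else 0

/-- The signs `a` such that the constraint with signs `a` holds on `tr P A + e0 β`. -/
def Gad.Q {P : Finset (Wd k)} (G : Gad P) (β : ZMod 2) : Finset (Wd k) :=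
  univ.filter fun a => ∀ z, z + G.e0 β ∈ tr P G.A → z + a ∈ P

/-- The variables of an equation: three variables and the common variable `w`. -/
def v4 {t : ℕ} (v : Fin 3 → Fin t) (w : Fin t) : Fin 4 → Fin t := ![v 0, v 1, v 2, w]

/-- The instance. -/
def Gad.inst {P : Finset (Wd k)} {n r : ℕ} [NeZero k] (G : Gad P) (v : Fin r → Fin 3 → Fin (tw k n)) (w : Fin (tw k n))
    (b : Fin r → ZMod 2) : Fin n → Bool := fun p =>
  decide (∃ (e : Fin r) (a : Wd k), ps (v4 (v e) w ∘ G.q, a) = p ∧ a ∈ G.Q (b e))

/-! ### Equivariant families of functions -/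

/-- An involutive action of sign changes on an index set. -/
structure Act (t : ℕ) (W : Type) : Type where
  f : Sg t → W → W
  inv : ∀ γ w, f γ (f γ w) = w

/-- The trivial action. -/
def Act.triv (t : ℕ) (W : Type) : Act t W := ⟨fun _ w => w, fun _ _ => rfl⟩

/-- The sum of two actions. -/
def Act.sum {t : ℕ} {W W' : Type} (a : Act t W) (a' : Act t W') : Act t (W ⊕ W') :=
  ⟨fun γ => Sum.map (a.f γ) (a'.f γ), by
    rintro γ (w | w)
    · simp [a.inv]
    · simp [a'.inv]⟩

/-- The action on the positions. -/
noncomputable def actP (k n : ℕ) [NeZero k] : Act (tw k n) (Fin n) := ⟨gl, gl_gl⟩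

/-- The family `F` is computed by a circuit with at most `m` gates which respects `V`, where the sign changes permute the gates of the family by
the action `act`. -/
def Av {n : ℕ} [NeZero k] (V : Submodule (ZMod 2) (Sg (tw k n))) {W : Type} (act : Act (tw k n) W)
    (F : W → Fn n) (m : ℕ) : Prop :=
  ∃ (G : Type) (_ : Fintype G) (C : SCirc n G) (emb : W → G), Fintype.card G ≤ m ∧ Function.Injective emb ∧
    (∀ w x, C.val x (emb w) = F w x) ∧
    ∀ γ ∈ V, ∃ π : Equiv.Perm G, (∀ g, C.lab (π g) = (C.lab g).map (gl γ)) ∧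
      (∀ g, C.kids (π g) = (C.kids g).map π.toEmbedding) ∧ (∀ g, C.fn (π g) = C.fn g) ∧
      ∀ w, π (emb w) = emb (act.f γ w)

/-! ### Frames -/

/-- The signs which are present on the scope `i`. -/
def sg {n : ℕ} [NeZero k] (x : Fin n → Bool) (i : Fin k → Fin (tw k n)) : Finset (Wd k) :=
  univ.filter fun a => x (ps (i, a)) = true

/-- The relation on the scope `i`. -/
def rel {n : ℕ} [NeZero k] (P : Finset (Wd k)) (x : Fin n → Bool) (i : Fin k → Fin (tw k n)) : Finset (Wd k) :=
  tr P (sg x i)

/-- The translate of a set. -/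
def shf (R : Finset (Wd k)) (d : Wd k) : Finset (Wd k) := univ.filter fun z => z + d ∈ R

/-- `d` is a period of `R`. -/
def Per (R : Finset (Wd k)) (d : Wd k) : Prop := shf R d = R

/-- The coordinate `J`, 0 if `J = none`. -/
def oc (d : Wd k) (J : Option (Fin k)) : ZMod 2 := J.elim 0 d

/-- The vertex of the coordinate `J` on the scope `i`: 0 (the constant) or `i j + 1`. -/
def ov {t : ℕ} (i : Fin k → Fin t) (J : Option (Fin k)) : Fin (t + 1) := J.elim 0 fun j => (i j).succ

/-- The sign change on the vertices (0 is not changed). -/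
def gh {t : ℕ} (γ : Sg t) : Fin (t + 1) → ZMod 2 := Fin.cons 0 γ

/-- A system of relative frames on the vertices: `st p q = none` if `p`, `q` are not connected. -/
abbrev Fr (t : ℕ) : Type := Fin (t + 1) → Fin (t + 1) → Option (ZMod 2)

/-- The sum of three frames. -/
def ad3 (a b c : Option (ZMod 2)) : Option (ZMod 2) :=
  a.bind fun u => b.bind fun v => c.bind fun w => some (u + v + w)

/-- Joining the classes of `a` and `b` with the label `l` (if there is a label and they are not connected yet). -/
def mrg {t : ℕ} (st : Fr t) (a b : Fin (t + 1)) (l : Option (ZMod 2)) : Fr t := fun p q =>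
  if l = none ∨ st a b ≠ none ∨ st p q ≠ none then st p q
  else (ad3 (st p a) l (st b q)).orElse fun _ => ad3 (st p b) l (st a q)

/-- The initial frames. -/
def fr0 (t : ℕ) : Fr t := fun p q => if p = q then some 0 else none

/-- The sources of edges: a scope `i` and two coordinates, or one coordinate and the constant. -/
abbrev Es (k t : ℕ) : Type := (Fin k → Fin t) × Fin k × Option (Fin k)

open Classical in
/-- The label of an edge, for a given choice function `cr` of frames of relations. -/
noncomputable def lab (cr : Finset (Wd k) → Wd k) {n : ℕ} [NeZero k] (P : Finset (Wd k)) (x : Fin n → Bool)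
    (e : Es k (tw k n)) : Option (ZMod 2) :=
  if ∀ d, Per (rel P x e.1) d → oc d (some e.2.1) = oc d e.2.2 then
    some (oc (cr (rel P x e.1)) (some e.2.1) + oc (cr (rel P x e.1)) e.2.2)
  else none

/-- The frames after the edges of the list `L`. -/
noncomputable def frs (cr : Finset (Wd k) → Wd k) {n : ℕ} [NeZero k] (P : Finset (Wd k)) (x : Fin n → Bool)
    (L : List (Es k (tw k n))) : Fr (tw k n) :=
  L.foldl (fun st e => mrg st (ov e.1 (some e.2.1)) (ov e.1 e.2.2) (lab cr P x e)) (fr0 _)

/-- The choice function `cr` is equivariant modulo periods. -/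
def Crep (cr : Finset (Wd k) → Wd k) : Prop := ∀ R d, Per R (cr (shf R d) + cr R + d)

open Classical in
/-- The root of a vertex: the smallest vertex connected with it. -/
noncomputable def rt {t : ℕ} (st : Fr t) (q : Fin (t + 1)) : Fin (t + 1) :=
  if h : ∃ p, st p q ≠ none then Fin.find (fun p => st p q ≠ none) h else q

/-- The frame of a variable relative to its root. -/
noncomputable def nu {t : ℕ} (st : Fr t) (q : Fin t) : ZMod 2 := (st (rt st q.succ) q.succ).getD 0

open Classical in
/-- The normal form of an instance (for the frames `st`). -/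
noncomputable def nf (P : Finset (Wd k)) {n : ℕ} [NeZero k] (st : Fr (tw k n)) (x : Fin n → Bool) : Fin n → Bool :=
  fun p => if h : ∃ c : Cl k (tw k n), ps c = p then
    decide (∀ z ∈ rel P x h.choose.1, (fun j => z j + nu st (h.choose.1 j) + h.choose.2 j) ∈ P)
  else false

theorem gh_add {t : ℕ} (γ : Sg t) (p : Fin (t + 1)) : gh γ p + gh γ p = 0 := CharTwo.add_self_eq_zero _

/-- The action on the labels of the edges. -/
def actE (k t : ℕ) : Act t (Es k t × ZMod 2) :=
  ⟨fun γ w => (w.1, w.2 + gh γ (ov w.1.1 (some w.1.2.1)) + gh γ (ov w.1.1 w.1.2.2)), by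
    intro γ w
    have h : ∀ a b c : ZMod 2, a + b + c + b + c = a := by decide
    exact Prod.ext rfl (h _ _ _)⟩

/-- The action on the values of the frames. -/
def actS (t : ℕ) : Act t (Fin (t + 1) × Fin (t + 1) × ZMod 2) :=
  ⟨fun γ w => (w.1, w.2.1, w.2.2 + gh γ w.1 + gh γ w.2.1), by
    intro γ w
    have h : ∀ a b c : ZMod 2, a + b + c + b + c = a := by decide
    exact Prod.ext rfl (Prod.ext rfl (h _ _ _))⟩

/-- The family of the labels. -/
noncomputable def famE (cr : Finset (Wd k) → Wd k) (P : Finset (Wd k)) (n : ℕ) [NeZero k]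
    (w : Es k (tw k n) × ZMod 2) : Fn n := fun x => decide (lab cr P x w.1 = some w.2)

/-- The family of the frames after the edges of `L`. -/
noncomputable def famS (cr : Finset (Wd k) → Wd k) (P : Finset (Wd k)) (n : ℕ) [NeZero k] (L : List (Es k (tw k n)))
    (w : Fin (tw k n + 1) × Fin (tw k n + 1) × ZMod 2) : Fn n := fun x => decide (frs cr P x L w.1 w.2.1 = some w.2.2)

/-- A consistent system of frames. -/
def IsFr {t : ℕ} (st : Fr t) : Prop := (∀ p, st p p = some 0) ∧ (∀ p q u, st p q = some u → st q p = some u) ∧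
  ∀ p q r u v, st p q = some u → st q r = some v → st p r = some (u + v)

/-! ### Gadgets -/

/-- Variables for the reduction from 3SAT: the variables, one common variable, `Z` variables for every clause. -/
abbrev Vx (t Z : ℕ) : Type := Fin t ⊕ Unit ⊕ (Pool.Agent.SGC.Cl t × Fin Z)

/-- The variable of the gadget of the clause `c`: places 0, 1, 2 are the variables of `c`, place 3 is the common variable. -/
def em {t Z : ℕ} (c : Pool.Agent.SGC.Cl t) : Fin 4 ⊕ Fin Z → Vx t Z
  | Sum.inl l => if h : (l : ℕ) < 3 then Sum.inl (c.1 ⟨l, h⟩) else Sum.inr (Sum.inl ())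
  | Sum.inr z => Sum.inr (Sum.inr (c, z))

/-- The sign of a place of the gadget of the clause `c`. -/
def sn {t Z : ℕ} (c : Pool.Agent.SGC.Cl t) : Fin 4 ⊕ Fin Z → ZMod 2
  | Sum.inl l => if h : (l : ℕ) < 3 then c.2 ⟨l, h⟩ else 0
  | Sum.inr _ => 0

/-- The set `K` of constraints is a gadget for: one of `β 0 + β 3`, `β 1 + β 3`, `β 2 + β 3` is 0. -/
def IsGad {Z : ℕ} (P : Finset (Wd k)) (K : Finset ((Fin k → Fin 4 ⊕ Fin Z) × Wd k)) : Prop :=
  ∀ β : Fin 4 → ZMod 2, (∃ ζ : Fin Z → ZMod 2, ∀ κ ∈ K, (fun j => Sum.elim β ζ (κ.1 j) + κ.2 j) ∈ P) ↔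
    ∃ l : Fin 3, β l.castSucc + β 3 = 0

end Pool.Agent.SGK
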