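import Pool.Agent.helper45.SGK.Uni

/-!
# Project SGK (MP_069684_lc): the quantitative form for rigid predicates
-/

set_option autoImplicit false

namespace Pool.Agent.SGK

open Finset Pool.Agent.helper38.Neg Pool.Agent.helper55.NT
open Pool.Agent.SGC (Sg SCirc Ext Mv hw RN Solv stA stB)

/-- Rigid predicates: symmetry costs a polynomial number of gates. -/
theorem all_rigid (k : ℕ) [NeZero k] (P : Finset (Wd k)) (hR : Rigid P) :
    ∃ q : Polynomial ℕ, ∀ (n s : ℕ) (V : Submodule (ZMod 2) (Sg (tw k n))) (C : Circuit n s) (o : Fin (n + s)),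
      C.Computes o (SAT k P n) → ∃ s' ≤ s + q.eval n, ∃ C' : SCirc n (Fin s'), Symm V C' ∧
        ∀ x, C'.val x C'.out = true ↔ SAT k P n x := by
  classical
  obtain ⟨cr, hcr⟩ := CRP k
  obtain ⟨a, ha⟩ := aLNF k cr P hR hcr
  refine ⟨2 * Polynomial.X + 1 + Polynomial.X * (Polynomial.C (k * (k + 1)) * 2 * Polynomial.C (2 ^ 2 ^ k + 1)) +
    (Polynomial.X * Polynomial.C (k * (k + 1)) + 1) *
      (Polynomial.X + Polynomial.X * Polynomial.C (k * (k + 1)) * 2 + 2 ^ 15 * (2 * (Polynomial.X + 1) ^ 2)) +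
    Polynomial.C a * (Polynomial.X + 1) ^ a, fun n s V C o hC => ?_⟩
  have hL : ∀ e : Es k (tw k n), e ∈ (univ : Finset (Es k (tw k n))).toList := fun e => by simp
  have h1 := aLED k cr P hcr n V
  have h2 := aLST k cr P hcr n V _ h1 (univ : Finset (Es k (tw k n))).toList
  obtain ⟨W, act, F, u, h3, h4, h5⟩ := ha n V _ _ hL h2
  have h6 := aAVG k n V W act F _ n s C u h3 h4
  obtain ⟨w, hw1, hw2⟩ : ∃ w : W ⊕ Fin s, (∀ γ ∈ V, (act.sum (Act.triv _ (Fin s))).f γ w = w) ∧
      ∀ x, (Sum.elim F fun (j : Fin s) (x : Fin n → Bool) => C.val (fun i => F (u i) x) (Fin.natAdd n j)) w x =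
        C.val (fun i => F (u i) x) o := by
    induction o using Fin.addCases with
    | left i =>
      refine ⟨Sum.inl (u i), fun γ hγ => congrArg Sum.inl (h4 γ hγ i), fun x => ?_⟩
      rw [FRE_val_in]
      rfl
    | right j => exact ⟨Sum.inr j, fun γ _ => rfl, fun x => rfl⟩
  obtain ⟨s', hs', C', hC1, hC2⟩ := aAVO k n V _ _ _ _ w h6 hw1
  refine ⟨s', hs'.trans ?_, C', hC1, fun x => ?_⟩
  · have c1 : Fintype.card (Es k (tw k n) × ZMod 2) = tw k n ^ k * (k * (k + 1)) * 2 := by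
      rw [Fintype.card_prod, FRE_card, ZMod.card]
    have c2 : (univ : Finset (Es k (tw k n))).toList.length = tw k n ^ k * (k * (k + 1)) := by
      rw [Finset.length_toList, Finset.card_univ, FRE_card]
    rw [c1, c2]
    simp only [Polynomial.eval_add, Polynomial.eval_mul, Polynomial.eval_X, Polynomial.eval_C, Polynomial.eval_pow,
      Polynomial.eval_one, Polynomial.eval_ofNat]
    have e1 := FRE_tw_pow k n
    have e2 := FRE_tw k n
    have e3 : tw k n ^ k * (k * (k + 1)) * 2 * (2 ^ 2 ^ k + 1) ≤ n * (k * (k + 1) * 2 * (2 ^ 2 ^ k + 1)) := by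
      rw [mul_assoc, mul_assoc, ← mul_assoc (k * (k + 1))]
      exact Nat.mul_le_mul_right _ e1
    have e4 : (tw k n ^ k * (k * (k + 1)) + 1) *
        (n + tw k n ^ k * (k * (k + 1)) * 2 + 2 ^ 15 * (2 * (tw k n + 1) ^ 2)) ≤
        (n * (k * (k + 1)) + 1) * (n + n * (k * (k + 1)) * 2 + 2 ^ 15 * (2 * (n + 1) ^ 2)) := by
      gcongr
    omega
  · have e1 : (fun i => F (u i) x) = nf P (frs cr P x (univ : Finset (Es k (tw k n))).toList) x :=
      funext fun i => h5 i x
    rw [hC2, hw2, hC, e1]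
    exact NFS k P n _ x

end Pool.Agent.SGK
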