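import Pool.Agent.helper45.SGK.Defs

/-!
# Project SGK (MP_069684_lc): the symmetry classification of all Boolean constraint satisfaction problems. Specification

THEOREM. `k ≥ 1`, `P` a set of words of `k` bits, `SAT k P`: constraints `P` of `k` literals. For every sequence `V n` of groups of
sign changes: (1) `P` closed under majority: `SAT k P` has polynomial-size circuits respecting `V n`. (2) `P` affine, not closed under
majority: iff `|V n|` is polynomially bounded. (3) `P` neither, rigid: iff `P/Poly = NP/Poly`. (4) `P` neither, not rigid: iff `P/Poly =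
NP/Poly` and `|V n|` is polynomially bounded. (Rigid: every affine intersection of translates of `P` is closed under majority.)
The sequel of project SGC (3SAT), whose rows are proved: Pool/Agent/helper45/SGC/All.lean.

RULES. Row `X`: file `Pool/Agent/<seat>/SGK/X.lean`, `import Pool.Agent.helper45.SGK.Spec`, `set_option autoImplicit false`,
`namespace Pool.Agent.SGK`, `open Finset Pool.Agent.helper38.Neg Pool.Agent.helper55.NT`,
`open Pool.Agent.SGC (Sg SCirc Ext Mv hw RN Solv stA stB)`, `theorem X (h1 : Y_stmt) ... : X_stmt` (other statements of this file, and proved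
statements `Pool.Agent.SGC.Y_stmt`, may be hypotheses, no circles). Auxiliary lemmas prefixed `X_`. No `convert`/`congr!`, no
`native_decide`, no straight double quotes. Land, lock note DONE, one line to helper45. If a statement looks wrong or
unclear: one line to helper45 at once.
-/

set_option autoImplicit false

namespace Pool.Agent.SGK

open Finset Pool.Agent.helper38.Neg Pool.Agent.helper55.NT
open Pool.Agent.SGC (Sg SCirc Ext Mv hw RN Solv stA stB)

/-! ## A. Ports of rows of project SGC (`tv → tw k`, `fl → gl`, `flc → fc`, `pos → ps`, `SAT3 n → SAT k P n`) -/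

/-- **FLK** (short; port of Pool/Agent/helper45/SGC/FLA.lean). -/
def FLK_stmt : Prop := ∀ (k : ℕ) [NeZero k] (n : ℕ), (∀ p : Fin n, gl (0 : Sg (tw k n)) p = p) ∧
  (∀ (γ δ : Sg (tw k n)) (p : Fin n), gl (γ + δ) p = gl γ (gl δ p)) ∧
  (∀ (γ : Sg (tw k n)) (p : Fin n), gl γ (gl γ p) = p) ∧
  ∀ (V : Submodule (ZMod 2) (Sg (tw k n))) (P : Finset (Wd k)), Inva V (SAT k P n)

/-- **STK** (short; port of Pool/Agent/helper88/SGC/STB.lean; from FLK). -/
def STK_stmt : Prop := ∀ (k : ℕ) [NeZero k] (n s : ℕ) (V : Submodule (ZMod 2) (Sg (tw k n))) (C : SCirc n (Fin s)),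
  Symm V C → ∃ H : Fin s → Submodule (ZMod 2) (Sg (tw k n)), ∀ g, H g ≤ V ∧ Nat.card V ≤ s * Nat.card (H g) ∧
    ∀ γ ∈ H g, ∃ π : Equiv.Perm (Fin s), Ext C (gl γ) π ∧ π g = g

/-- **TRK** (short; port of Pool/Agent/helper84/SGC/TRN.lean). -/
def TRK_stmt : Prop := ∀ (k : ℕ) [NeZero k] (n : ℕ) (W : Type) [Fintype W] (V : Submodule (ZMod 2) (Sg (tw k n)))
  (C : SCirc n W), Symm V C →
  ∃ C' : SCirc n (Fin (Fintype.card W)), Symm V C' ∧ ∀ x, C'.val x C'.out = C.val x C.out

/-- **SMK** (short; port of Pool/Agent/helper8/SGC/SMT.lean; from FLK, DSC of project SGC, TRK). -/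
def SMK_stmt : Prop := ∀ (k : ℕ) [NeZero k] (n s : ℕ) (V : Submodule (ZMod 2) (Sg (tw k n))) (C : Circuit n s)
  (o : Fin (n + s)) (f : (Fin n → Bool) → Prop), C.Computes o f → Inva V f →
  ∃ s' ≤ n + Nat.card V * s + 1, ∃ C' : SCirc n (Fin s'), Symm V C' ∧ ∀ x, C'.val x C'.out = true ↔ f x

/-- **COK** (short, medium; port of Pool/Agent/helper75/SGC/COR.lean to an abstract instance map `J`; from EXV, SPN, AVE of project SGC; the two
hypotheses on `J` replace EQV and INP there). At the end: some `f ∉ U C.out` works for all `b`. -/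
def COK_stmt : Prop := ∀ (n s r c t : ℕ) (C : SCirc n (Fin s)) (ρ : Sg t → Fin n → Fin n)
  (H : Fin s → Submodule (ZMod 2) (Sg t)) (v : Fin r → Fin 3 → Fin t) (J : (Fin r → ZMod 2) → Fin n → Bool),
  1 ≤ c → 4 * c < r →
  (∀ g, ∀ γ ∈ H g, ∃ π : Equiv.Perm (Fin s), Ext C (ρ γ) π ∧ π g = g) →
  (∀ g, ∀ γ ∈ H g, ∀ b, J b ∘ ρ γ = J (b + Mv v γ)) →
  (∀ g, ∀ γ ∈ H g, ∀ (p : Fin n) (f : Fin r) (b : Fin r → ZMod 2), ρ γ p = p → Mv v γ f ≠ 0 →
    J (b + Pi.single f 1) p = J b p) →
  (∀ γ : Sg t, ∑ e, Mv v γ e = 0) →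
  (∀ g, ∀ y : Fin r → ZMod 2, c < hw y → hw y < r - c → ∃ γ ∈ H g, ∑ e, y e * Mv v γ e ≠ 0) →
  ∃ f : Fin r, ∀ b, C.val (J b) C.out = C.val (J (b + Pi.single f 1)) C.out

/-! ## B. The lower bound for predicates which are not rigid -/

/-- **GAD** (medium; Mathlib only). `A₀` with `tr P A₀` affine and `a, b, c` in it with `m = maj3 a b c` not in it. `A = {a' + m | a' ∈ A₀}`: `z ∈ tr P A` iff
`z + m ∈ tr P A₀`. In every coordinate at most one of `a, b, c` differs from `m`: `q j = 0` if `a j ≠ m j`, 1 if `b j ≠ m j`, 2 if `c j ≠ m j`, else 3. The indicator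
of class 0 is `a + m`, of class 1 `b + m`, of class 2 `c + m`; `0 + m = m ∉ tr P A₀`. -/
def GAD_stmt : Prop := ∀ (k : ℕ) (P : Finset (Wd k)), ¬ Rigid P → Nonempty (Gad P)

/-- **EQK** (medium). At a position `ps (v4 (v e) w ∘ q, a)`: let `g = γ ∘ v4 (v e) w ∘ q`, `β = b e`, `μ = Mv v γ e`. To show: `a + g ∈ G.Q β ↔ a ∈ G.Q (β + μ)`. Replace `z` by `z + g`:
`z + g + e0 β ∈ tr P A ↔ z + e0 (β + μ) ∈ tr P A`, because `g + e0 μ` is a sum of an even number of the three indicators (`γ w = 0`; the coefficients are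
`γ (v e 0) + μ, γ (v e 1), γ (v e 2)`, their sum is 0), and `tr P A` is closed under adding the sum of two of its elements (`aff`). Other positions: `gl_of_not`, and
`ps_injective`; scopes are not changed by `gl`. -/
def EQK_stmt : Prop := ∀ (k : ℕ) [NeZero k] (n r : ℕ) (P : Finset (Wd k)) (G : Gad P)
  (v : Fin r → Fin 3 → Fin (tw k n)) (w : Fin (tw k n)) (b : Fin r → ZMod 2) (γ : Sg (tw k n)), γ w = 0 →
  G.inst v w b ∘ gl γ = G.inst v w (b + Mv v γ)

/-- **INK** (short). If `p = ps (v4 (v f) w ∘ q, a)` then `γ (v4 (v f) w (q j)) = 0` for all `j`; the classes 0, 1, 2 are not empty (`mem`, `zero`), so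
`Mv v γ f = 0`. Compare Pool/Agent/helper45/SGC/INP.lean. -/
def INK_stmt : Prop := ∀ (k : ℕ) [NeZero k] (n r : ℕ) (P : Finset (Wd k)) (G : Gad P)
  (v : Fin r → Fin 3 → Fin (tw k n)) (w : Fin (tw k n)) (p : Fin n) (γ : Sg (tw k n)) (f : Fin r)
  (b : Fin r → ZMod 2), gl γ p = p → Mv v γ f ≠ 0 → G.inst v w (b + Pi.single f 1) p = G.inst v w b p

/-- **SEK** (medium). (i) `α` satisfies the constraints of the equation `e` iff `z + e0 (b e) ∈ tr P A` with `z = α ∘ v4 (v e) w ∘ q`: ⇐ by definition of `Q`; ⇒: for `a ∈ A` the sign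
`a + e0 (b e)` is in `Q (b e)`. (ii) Let `T u` (`u : Fin 4 → ZMod 2`) say `u ∘ q ∈ tr P A`. `T` is affine, contains the unit vectors 0, 1, 2 (not 3) and not 0. So for
`u 3 = 0`: `T u` iff `u 0 + u 1 + u 2 = 1` (⇐ sums of one or three unit vectors; ⇒ otherwise `u` is a sum of two unit vectors or 0, and adding gives `T 0`). And there is `ε`
with `u 0 + u 1 + u 2 + ε u 3 = 1` whenever `T u` (if `T u`, `T u'` with `u 3 = u' 3 = 1` then `u + u'` has an even sum, otherwise `T (u + u' + e)` gives an even element with last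
coordinate 0). (iii) `b = 1`: `α = 0` works, as `T (1,0,0,0)`. `b = 1 + Pi.single f 1`: sum of `α (v e 0) + b e + α (v e 1) + α (v e 2) + ε α w = 1` over all `e`: the left side is
`0 + (r + 1) + r ε α w = 1`, the right side is `r = 0` (`r` even). -/
def SEK_stmt : Prop := ∀ (k : ℕ) [NeZero k] (n r : ℕ) (P : Finset (Wd k)) (G : Gad P)
  (v : Fin r → Fin 3 → Fin (tw k n)) (w : Fin (tw k n)), Even r → (∀ γ : Sg (tw k n), ∑ e, Mv v γ e = 0) →
  SAT k P n (G.inst v w 1) ∧ ∀ f : Fin r, ¬ SAT k P n (G.inst v w (1 + Pi.single f 1))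

/-- **LBK** (medium; from STK, COK, GAD, EQK, INK, SEK and VEX, NUM of project SGC; compare Pool/Agent/helper50/SGC/LBD.lean). If `tw k n = 0` then `|V| = 1`. Otherwise `w = 0`,
`V' = {γ ∈ V | γ w = 0}`, `|V| ≤ 2 |V'|`. If `|V| > (s+2)^241` then `|V'| > (s+2)^240`. `C` respects `V'`: `H` from STK for `V'`; `v` from VEX with `r = 2 (5 m)`, `c = 2 m`; COK with
`ρ = gl`, `J = G.inst v w`; `b = 1` contradicts SEK. -/
def LBK_stmt : Prop := ∀ (k : ℕ) [NeZero k] (P : Finset (Wd k)), ¬ Rigid P → ∀ (n s : ℕ)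
  (V : Submodule (ZMod 2) (Sg (tw k n))) (C : SCirc n (Fin s)), Symm V C →
  (∀ x, C.val x C.out = true ↔ SAT k P n x) → Nat.card V ≤ (s + 2) ^ 241

/-! ## C. Equivariant families -/

/-- **AV0** (short). `G = Option (Fin n)`: `some p` is the input gate of `p`, `none` a constant gate; `emb = some`. `π` = the involution `some p ↦ some (gl γ p)`. -/
def AV0_stmt : Prop := ∀ (k : ℕ) [NeZero k] (n : ℕ) (V : Submodule (ZMod 2) (Sg (tw k n))),
  Av V (actP k n) (fun p x => x p) (n + 1)

/-- **AVI** (short; from EXV of project SGC). A family in the sense of `Av` is equivariant. -/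
def AVI_stmt : Prop := ∀ (k : ℕ) [NeZero k] (n : ℕ) (V : Submodule (ZMod 2) (Sg (tw k n))) (W : Type)
  (act : Act (tw k n) W) (F : W → Fn n) (m : ℕ), Av V act F m →
  ∀ γ ∈ V, ∀ w x, F w (x ∘ gl γ) = F (act.f γ w) x

/-- **AVR** (short). Sub-family: `emb' = emb ∘ ι`. -/
def AVR_stmt : Prop := ∀ (k : ℕ) [NeZero k] (n : ℕ) (V : Submodule (ZMod 2) (Sg (tw k n))) (W W' : Type)
  (act : Act (tw k n) W) (act' : Act (tw k n) W') (F : W → Fn n) (m : ℕ) (ι : W' → W), Av V act F m →
  Function.Injective ι → (∀ γ ∈ V, ∀ w, act.f γ (ι w) = ι (act'.f γ w)) → Av V act' (F ∘ ι) m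

/-- **AVS** (medium). One layer of symmetric gates. New gates `G ⊕ W'`: the gate `inr w'` has the kids `{inl (emb w) | w ∈ K w'}`, the function `φ w'` and a rank above all ranks of `G`; the gates
`inl g` are as before (the value of `inl g` is the old value: induction on the rank). `emb' = Sum.map emb id`; `π' = Sum.map π (act'.f γ)` (an involution on the second part). Kids: `π (emb w) = emb (act.f γ w)`
and `w ∈ K w' ↔ act.f γ w ∈ K (act'.f γ w')`. (`out` = any old gate.) -/
def AVS_stmt : Prop := ∀ (k : ℕ) [NeZero k] (n : ℕ) (V : Submodule (ZMod 2) (Sg (tw k n))) (W W' : Type) [Fintype W']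
  (act : Act (tw k n) W) (act' : Act (tw k n) W') (F : W → Fn n) (m : ℕ) (K : W' → Finset W) (φ : W' → ℕ → Bool)
  (F' : W' → Fn n), Av V act F m →
  (∀ γ ∈ V, ∀ w w', w ∈ K w' ↔ act.f γ w ∈ K (act'.f γ w')) → (∀ γ ∈ V, ∀ w', φ (act'.f γ w') = φ w') →
  (∀ w' x, F' w' x = φ w' ((K w').filter fun w => F w x = true).card) →
  Av V (act.sum act') (Sum.elim F F') (m + Fintype.card W')

/-- **AVL** (medium, long; from AVI, AVR, AVS). One layer of local functions. Layer 1: `NOT F w` for every `w` (action `act`). Layer 2: index set `{(w', σ) | σ ⊆ K w'}` (at most `2^M` for every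
`w'`), action `(act'.f γ w', image of σ)`: the conjunction of `F w`, `w ∈ σ`, and of `NOT F w`, `w ∈ K w' \ σ` (kids in the two families, `fn m = (m = |K w'|)`). Layer 3: `F' w'` = the disjunction of the
gates `(w', σ)` with `σ ∈ good w'` where `good w' = {σ | σ = {w ∈ K w' | F w x} and F' w' x for some x}`. Value: if `F' w' x` then the gate of `σ = {w ∈ K w' | F w x}` is true; conversely if the gate `σ ∈ good w'` is
true at `x` then `x` and the witness `x₀` of `good` agree on `K w'`, so `F' w' x = F' w' x₀`. Equivariance of `good`: if `x` witnesses `σ ∈ good w'` then `x ∘ gl γ` witnesses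
`act.f γ '' σ ∈ good (act'.f γ w')`, as `F (act.f γ w) (x ∘ gl γ) = F w x` (AVI, involution), the same for `F'`. Finally AVR to `W ⊕ W'`. -/
def AVL_stmt : Prop := ∀ (k : ℕ) [NeZero k] (n : ℕ) (V : Submodule (ZMod 2) (Sg (tw k n))) (W W' : Type) [Fintype W]
  [Fintype W'] (act : Act (tw k n) W) (act' : Act (tw k n) W') (F : W → Fn n) (m M : ℕ) (K : W' → Finset W)
  (F' : W' → Fn n), Av V act F m → (∀ w', (K w').card ≤ M) →
  (∀ γ ∈ V, ∀ w w', w ∈ K w' ↔ act.f γ w ∈ K (act'.f γ w')) →
  (∀ γ ∈ V, ∀ w' x, F' w' (x ∘ gl γ) = F' (act'.f γ w') x) →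
  (∀ w' x y, (∀ w ∈ K w', F w x = F w y) → F' w' x = F' w' y) →
  Av V (act.sum act') (Sum.elim F F') (m + Fintype.card W + Fintype.card W' * (2 ^ M + 1))

/-- **AVG** (medium; from AVR, AVS). An ordinary circuit on top of invariant functions. Induction over `C`: `snoc C g`: AVS with `W' = Unit`, trivial action; kids = the (one or two, or no) wires of `g`: input wire `i ↦ inl (u i)`,
gate wire `j ↦ inr j`; `fn m` = `(m = number of kids)` for `and`, `(1 ≤ m)` for `or`, `(m = 0)` for `not`, constant for `const`. Then AVR along `W ⊕ Fin (s+1) → (W ⊕ Fin s) ⊕ Unit` (`Fin.lastCases`). -/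
def AVG_stmt : Prop := ∀ (k : ℕ) [NeZero k] (n : ℕ) (V : Submodule (ZMod 2) (Sg (tw k n))) (W : Type)
  (act : Act (tw k n) W) (F : W → Fn n) (m N s : ℕ) (C : Circuit N s) (u : Fin N → W), Av V act F m →
  (∀ γ ∈ V, ∀ i, act.f γ (u i) = u i) →
  Av V (act.sum (Act.triv _ (Fin s)))
    (Sum.elim F fun (j : Fin s) (x : Fin n → Bool) => C.val (fun i => F (u i) x) (Fin.natAdd N j)) (m + s)

/-- **AVO** (short; from TRK). `out := emb w`. -/
def AVO_stmt : Prop := ∀ (k : ℕ) [NeZero k] (n : ℕ) (V : Submodule (ZMod 2) (Sg (tw k n))) (W : Type)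
  (act : Act (tw k n) W) (F : W → Fn n) (m : ℕ) (w : W), Av V act F m → (∀ γ ∈ V, act.f γ w = w) →
  ∃ s ≤ m, ∃ C : SCirc n (Fin s), Symm V C ∧ ∀ x, C.val x C.out = F w x

/-! ## D. Canonical frames for rigid predicates -/

/-- **BPK** (short, medium; Mathlib only). Baker and Pixley. Induction on `|J|`: for every `J : Finset (Fin k)` some `s ∈ S` agrees with `u` on `J`. `|J| ≤ 2`: hypothesis (`k ≥ 1`; for `J = ∅` or one
element take `j = j'`). `|J| ≥ 3`: three different elements `j₁, j₂, j₃ ∈ J`, `s_i` agrees with `u` on `J \ {j_i}`; `maj3 s₁ s₂ s₃` agrees with `u` on `J`. -/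
def BPK_stmt : Prop := ∀ (k : ℕ) [NeZero k] (S : Finset (Wd k)) (u : Wd k), MajClosed S →
  (∀ j j', ∃ s ∈ S, s j = u j ∧ s j' = u j') → u ∈ S

/-- **RIG** (medium; from BPK). `R = tr P A`. If `R = ∅` every `u` is a period. Otherwise let `L` be the set of the periods of `R`, a subgroup; `L = tr P A'` with `A' = {d + a | d ∈ R, a ∈ A}`: `z ∈ tr P A'` iff
`z + d ∈ R` for all `d ∈ R` iff `z` is a period (finite sets). `L` is affine, so closed under majority. By BPK it is enough to find for `j, j'` a `d ∈ L` with `d j = u j`, `d j' = u j'`. The pairs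
`(d j, d j')`, `d ∈ L`, form a subgroup `B` of the four pairs; if `(u j, u j') ∉ B` then one of the functionals `x`, `y`, `x + y` vanishes on `B` and not at `(u j, u j')`: it is the hypothesis for
`(j, none)`, `(j', none)` or `(j, some j')` that is violated. -/
def RIG_stmt : Prop := ∀ (k : ℕ) [NeZero k] (P A : Finset (Wd k)) (u : Wd k), Rigid P →
  (∀ (j : Fin k) (J : Option (Fin k)), (∀ d, Per (tr P A) d → oc d (some j) = oc d J) → oc u (some j) = oc u J) →
  Per (tr P A) u

/-- **CRP** (short, medium; Mathlib only). Number all sets (`Fintype.equivFin`); `cr R` = a `d` for which the number of `shf R d` is minimal. `shf (shf R d) d' = shf R (d + d')`, so `shf R (d + cr (shf R d))` and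
`shf R (cr R)` have the same (minimal) number and are equal; then `cr (shf R d) + cr R + d` is a period of `R`. -/
def CRP_stmt : Prop := ∀ k : ℕ, ∃ cr : Finset (Wd k) → Wd k, Crep cr

/-- **UFA** (medium). Frame systems. (2): `mrg` does nothing unless `l = some v` and `st a b = none`; then classes of `a` and `b` are joined: for `p ~ a`, `q ~ b` the new value is `st p a + v + st b q`, symmetric in
the two orders. Transitivity: cases by the classes of `p, q, r` (in the class of `a`, of `b`, or another). -/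
def UFA_stmt : Prop := ∀ t : ℕ, IsFr (fr0 t) ∧
  ∀ (st : Fr t) (a b : Fin (t + 1)) (l : Option (ZMod 2)), IsFr st → IsFr (mrg st a b l) ∧
    (∀ p q u, st p q = some u → mrg st a b l p q = some u) ∧ (l ≠ none → mrg st a b l a b ≠ none)

/-- **UFE** (short). Equivariance of `mrg`: `ad3 (st p a + g p + g a) (l + g a + g b) (st b q + g b + g q) = ad3 .. + g p + g q`; being `none` does not change. -/
def UFE_stmt : Prop := ∀ (t : ℕ) (st : Fr t) (a b : Fin (t + 1)) (l : Option (ZMod 2)) (g : Fin (t + 1) → ZMod 2),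
  mrg (fun p q => (st p q).map fun u => u + g p + g q) a b (l.map fun u => u + g a + g b) =
    fun p q => (mrg st a b l p q).map fun u => u + g p + g q

/-- **LAB** (short, medium). `sg (x ∘ gl γ) i = shf (sg x i) (γ ∘ i)`, so `rel P (x ∘ gl γ) i = shf (rel P x i) (γ ∘ i)`; the periods are the same; with `R = rel P x i`, `g = γ ∘ i` the period `cr (shf R g) + cr R + g` has
equal values at the two coordinates of an edge. `oc g J = gh γ (ov i J)`. -/
def LAB_stmt : Prop := ∀ (k : ℕ) [NeZero k] (cr : Finset (Wd k) → Wd k) (P : Finset (Wd k)) (n : ℕ)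
  (γ : Sg (tw k n)) (x : Fin n → Bool), Crep cr →
  (∀ i : Fin k → Fin (tw k n), rel P (x ∘ gl γ) i = shf (rel P x i) (γ ∘ i)) ∧
  ∀ e : Es k (tw k n), lab cr P (x ∘ gl γ) e =
    (lab cr P x e).map fun u => u + gh γ (ov e.1 (some e.2.1)) + gh γ (ov e.1 e.2.2)

/-- **FRA** (short, medium; from UFA, UFE, LAB). Induction over the list from the right (`List.foldl_append`, `List.reverseRecOn`). -/
def FRA_stmt : Prop := ∀ (k : ℕ) [NeZero k] (cr : Finset (Wd k) → Wd k) (P : Finset (Wd k)) (n : ℕ)
  (x : Fin n → Bool) (L : List (Es k (tw k n))), Crep cr → IsFr (frs cr P x L) ∧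
  (∀ e ∈ L, lab cr P x e ≠ none → frs cr P x L (ov e.1 (some e.2.1)) (ov e.1 e.2.2) ≠ none) ∧
  ∀ γ : Sg (tw k n), frs cr P (x ∘ gl γ) L = fun p q => (frs cr P x L p q).map fun u => u + gh γ p + gh γ q

/-- **NFI** (medium; from RIG, LAB, FRA). Let `st = frs cr P x L`, `st'` the frames of `x ∘ gl γ`. Roots are the same (`st' p q = none` iff `st p q = none`); `nu st' q = nu st q + γ q + gh γ (root of q)`. For `c = (i, a)`,
`R = rel P x i`: the relation of `x ∘ gl γ` is `shf R (γ ∘ i)`, so (substitute `z ↦ z + γ ∘ i`) the bit is: for all `z ∈ R`: `z + ν ∘ i + u + a ∈ P` with `u j = gh γ (root of i j)`. By RIG `u` is a period of `R`: let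
`(j, J)` be a pair with `d j = oc d J` for all periods `d`; then the edge `(i, j, J) ∈ L` has a label, so its ends `ov i (some j)`, `ov i J` are connected and have the same root; if `J = none` the root is 0 (the
smallest vertex) and `gh γ 0 = 0`. So the set of the `z + u`, `z ∈ R`, is `R`. -/
def NFI_stmt : Prop := ∀ (k : ℕ) [NeZero k] (cr : Finset (Wd k) → Wd k) (P : Finset (Wd k)) (n : ℕ)
  (x : Fin n → Bool) (L : List (Es k (tw k n))) (γ : Sg (tw k n)), Rigid P → Crep cr → (∀ e, e ∈ L) →
  (∀ q, rt (frs cr P (x ∘ gl γ) L) q = rt (frs cr P x L) q) ∧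
    nf P (frs cr P (x ∘ gl γ) L) (x ∘ gl γ) = nf P (frs cr P x L) x

/-- **NFS** (short, medium). For every `st`: `α ↦ α + nu st`. ⇐: `α` satisfies `x`, so `α ∘ i ∈ rel P x i`; the bit `(i, a)` of `nf` says `z + ν ∘ i + a ∈ P` for all `z` in it. ⇒: if `(i, a)` is present in `x` then
`(i, a + ν ∘ i)` is present in `nf`. -/
def NFS_stmt : Prop := ∀ (k : ℕ) [NeZero k] (P : Finset (Wd k)) (n : ℕ) (st : Fr (tw k n)) (x : Fin n → Bool),
  SAT k P n (nf P st x) ↔ SAT k P n x

/-! ## E. The normal form is computed by symmetric circuits -/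

/-- **LED** (medium; from AV0, AVL, LAB). The labels: `K (e, β)` = the positions `ps (e.1, a)`, `a : Wd k` (at most `2^k`). -/
def LED_stmt : Prop := ∀ (k : ℕ) [NeZero k] (cr : Finset (Wd k) → Wd k) (P : Finset (Wd k)), Crep cr →
  ∀ (n : ℕ) (V : Submodule (ZMod 2) (Sg (tw k n))),
  Av V ((actP k n).sum (actE k (tw k n))) (Sum.elim (fun p x => x p) (famE cr P n))
    (n + 1 + n + Fintype.card (Es k (tw k n) × ZMod 2) * (2 ^ 2 ^ k + 1))

/-- **LST** (medium; from AVL, AVR, FRA). The frames after the edges of `L`, by induction over `L` from the right. `L = []`: the functions are constant (`AVL` with `K = ∅`, `M = 0`). Step `L ++ [e]`, `a = ov e.1 (some e.2.1)`,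
`b = ov e.1 e.2.2`: AVL with `K (p, q, β)` = the values (two each) of the frames of `(p,q), (p,a), (b,q), (p,b), (a,q), (a,b)` and the two labels of `e`: at most 14; then AVR forgets the old frames.
Equivariance from FRA. (The frame of `(p, q)` is determined by its two values.) -/
def LST_stmt : Prop := ∀ (k : ℕ) [NeZero k] (cr : Finset (Wd k) → Wd k) (P : Finset (Wd k)), Crep cr →
  ∀ (n : ℕ) (V : Submodule (ZMod 2) (Sg (tw k n))) (m : ℕ),
  Av V ((actP k n).sum (actE k (tw k n))) (Sum.elim (fun p x => x p) (famE cr P n)) m →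
  ∀ L : List (Es k (tw k n)),
  Av V (((actP k n).sum (actE k (tw k n))).sum (actS (tw k n)))
    (Sum.elim (Sum.elim (fun p x => x p) (famE cr P n)) (famS cr P n L))
    (m + (L.length + 1) * (n + Fintype.card (Es k (tw k n) × ZMod 2) + 2 ^ 15 * (2 * (tw k n + 1) ^ 2)))

/-- **LNF** (medium, long; from AVL, AVS, AVR, FRA, NFI). From the frames for `L` (all edges) to the normal form. Layers, all new actions trivial: (i) `conn (p, q) = (st p q ≠ none)`: AVL, `K` = the two values; (ii) `none below`: AVS, kids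
`conn (p', q)`, `p' < p`, `fn m = (m = 0)`; (iii) `(rt st q = p)` = conjunction of the two (AVL, `M = 2`; `st q q ≠ none`); (iv) `Y (c, ρ)`, `c : Cl k t`, `ρ : Fin k → Fin (t+1)`: the roots of the `(c.1 j).succ` are the
`ρ j` and `nf P st x (ps c)`: AVL, `K` = the positions `ps (c.1, a)`, the two values of the frames `(ρ j, (c.1 j).succ)` and the indicators (iii) of `(ρ j, (c.1 j).succ)`: `M = 2^k + 3 k`; invariance from NFI; (v) the position
`p`: AVS, kids `Y (c, ρ)` with `ps c = p`, `fn m = (1 ≤ m)`. `B` = `(t+1)²` pairs, `t^k 2^k (t+1)^k` indices `(c, ρ)`; a generous bound is stated (`t^k 2^k ≤ n`). -/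
def LNF_stmt : Prop := ∀ (k : ℕ) [NeZero k] (cr : Finset (Wd k) → Wd k) (P : Finset (Wd k)), Rigid P → Crep cr →
  ∃ a : ℕ, ∀ (n : ℕ) (V : Submodule (ZMod 2) (Sg (tw k n))) (m : ℕ) (L : List (Es k (tw k n))), (∀ e, e ∈ L) →
  Av V (((actP k n).sum (actE k (tw k n))).sum (actS (tw k n)))
    (Sum.elim (Sum.elim (fun p x => x p) (famE cr P n)) (famS cr P n L)) m →
  ∃ (W : Type) (act : Act (tw k n) W) (F : W → Fn n) (u : Fin n → W), Av V act F (m + a * (n + 1) ^ a) ∧
    (∀ γ ∈ V, ∀ p, act.f γ (u p) = u p) ∧ ∀ p x, F (u p) x = nf P (frs cr P x L) x p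

/-- **FRE** (medium; from CRP, LED, LST, LNF, NFS, AVG, AVO). Symmetry is free for rigid predicates. `L = univ.toList`. The circuit for `SAT k P n` (at most `p(n)` gates) applied to the normal form (AVG), output wire: AVO (an input wire
`o` is `u`). Sizes: `tw k n ≤ n`, `t^k ≤ n`, `Fintype.card (Es k t) = t^k k (k+1)`. -/
def FRE_stmt : Prop := ∀ (k : ℕ) [NeZero k] (P : Finset (Wd k)), Rigid P → InPPoly (SAT k P) →
  ∀ V : (n : ℕ) → Submodule (ZMod 2) (Sg (tw k n)), SymPoly V (SAT k P)

/-! ## F. The complexity of `SAT k P` -/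

/-- **SNK** (medium; port of Pool/Agent/helper80/SGC/SNP.lean). The check of one constraint is a function of `k` guessed bits: a disjunction over the words of `P`. -/
def SNK_stmt : Prop := ∀ (k : ℕ) [NeZero k] (P : Finset (Wd k)), InNPPoly (SAT k P)

/-- **GEL** (medium; Mathlib only). See `Pool.Agent.SGC.GEL_stmt` in Pool/Agent/helper45/SGC/Spec.lean (complete proof there). -/
def GEL_stmt : Prop := Pool.Agent.SGC.GEL_stmt

/-- **GST** (medium, long). See `Pool.Agent.SGC.GST_stmt` in Pool/Agent/helper45/SGC/Spec.lean (complete proof there). -/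
def GST_stmt : Prop := Pool.Agent.SGC.GST_stmt

/-- **ITR** (medium; from GEL, GST). Gaussian elimination. Apply the step for the columns `0, ..., t - 1` (`RN.trans'`; the functions are the entries of `a x`, `b x` after the first `i` steps, defined by recursion). By GEL
solvability does not change and in the end all coefficients are 0 (a column which is 0 stays 0), so `Solv` iff all right hand sides are 0: `m` negations and a conjunction (`2 m + 2` gates; or
a disjunction and one negation). `RN.toCircuit`. -/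
def ITR_stmt : Prop := ∀ (n m t M : ℕ) (a : (Fin n → Bool) → Fin m → Fin t → ZMod 2)
  (b : (Fin n → Bool) → Fin m → ZMod 2),
  RN ∅ M ((Set.range fun (q : Fin m × Fin t) (x : Fin n → Bool) => decide (a x q.1 q.2 = 1)) ∪
    Set.range fun (r : Fin m) (x : Fin n → Bool) => decide (b x r = 1)) →
  ∃ s ≤ M + t * (40 * (m + t + 2) ^ 3) + 2 * m + 2, ∃ (C : Circuit n s) (o : Fin (n + s)),
    ∀ x, C.val x o = true ↔ Solv (a x) (b x)

/-- **AFS** (medium; Mathlib only). An affine set is the set of the solutions of the linear equations that hold on it. `P = ∅`: the equation `0 = 1`. Otherwise `z₀ ∈ P`, `P + z₀` is a subspace; if `z + z₀` is not in it there is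
a functional `l` vanishing on it and not at `z + z₀` (`Submodule.exists_le_ker_of_notMem`; or DUA of project SGC, Pool/Agent/helper91/SGC/DUA.lean); `ρ = l(z₀)`. -/
def AFS_stmt : Prop := ∀ (k : ℕ) (P : Finset (Wd k)), AffClosed P → ∀ z : Wd k, z ∈ P ↔
  ∀ (l : Wd k) (ρ : ZMod 2), (∀ z' ∈ P, ∑ j, l j * z' j = ρ) → ∑ j, l j * z j = ρ

/-- **AFK** (medium; from ITR, AFS). Rows: `(c, l, ρ)`, `c : Cl k t`, `(l, ρ)` an equation of `P` (other pairs: the zero row); coefficient of the variable `q`: `[x (ps c)] ∑ j with c.1 j = q, l j`; right hand side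
`[x (ps c)] (ρ + ∑ l j c.2 j)`. These functions are constant 0 or variables (`RN ∅ 1`). `Solv` iff `SAT k P n x`. Number of rows at most `2^(k+1) n`. -/
def AFK_stmt : Prop := ∀ (k : ℕ) [NeZero k] (P : Finset (Wd k)), AffClosed P → InPPoly (SAT k P)

/-- **TSA** (medium; Mathlib only). 2SAT. `N u v`: the literals `u`, `v` (variable, value) must not hold both; `u → v` iff `N u (¬ v)`, so `u → v` gives `¬ v → ¬ u`; `R` the reflexive transitive closure. ⇒: if `α` is good and `α` has
value `u.2` at `u.1` and `R u v` then it has value `v.2` at `v.1`. ⇐: call `D` good if it is closed under `R` and does not contain `u` and `¬ u` both. If `q` is undecided choose `u ∈ {(q,0), (q,1)}` with not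
`R u (¬ u)`; `D ∪ {v | R u v}` is good: if `R u v`, `R u (¬ v)` then `R v (¬ u)`, so `R u (¬ u)`; if `v ∈ D`, `R u (¬ v)` then `R v (¬ u)`, so `¬ u ∈ D`, and `q` was decided. Induction on the number of undecided variables. The
assignment of a complete `D` is good: `N u v`, `u ∈ D` give `¬ v ∈ D`. -/
def TSA_stmt : Prop := ∀ (t : ℕ) (N : Fin t × ZMod 2 → Fin t × ZMod 2 → Prop), (∀ u v, N u v → N v u) →
  ((∃ α : Sg t, ∀ u v, N u v → ¬ (α u.1 = u.2 ∧ α v.1 = v.2)) ↔
    ∀ q, ¬ (Relation.ReflTransGen (fun u v : Fin t × ZMod 2 => N u (v.1, v.2 + 1)) (q, 0) (q, 1) ∧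
      Relation.ReflTransGen (fun u v : Fin t × ZMod 2 => N u (v.1, v.2 + 1)) (q, 1) (q, 0)))

open Classical in
/-- **TRC** (medium). Transitive closure. `D i (u, v)` = there is a walk with at most `i` steps: `D 0 = (u = v)`, `D (i+1) (u, v) = D i (u, v) ∨ ∃ w, D i (u, w) ∧ E w v`; `D M` is the closure (shortest walks have at most `M - 1` steps, or: the
sets grow strictly until they are closed). At most `(2 M + 2) M²` gates for every step. -/
def TRC_stmt : Prop := ∀ (n M : ℕ) (E : Fin M → Fin M → Fn n),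
  RN (Set.range fun q : Fin M × Fin M => E q.1 q.2) (8 * (M + 2) ^ 4)
    (Set.range fun (q : Fin M × Fin M) (x : Fin n → Bool) =>
      decide (Relation.ReflTransGen (fun u v => E u v x = true) q.1 q.2))

/-- **MAK** (medium; from BPK, TSA, TRC). `P` closed under majority: by BPK `z ∈ P` iff all pairs `(z j, z j')` are pairs of words of `P`. So `SAT` is the 2SAT instance: `N (q, β) (q', β')` iff for some constraint `c` which is present and some
`j, j'`: `c.1 j = q`, `c.1 j' = q'` and `(β + c.2 j, β' + c.2 j')` is not a pair of a word of `P` (symmetric; `P = ∅`: all pairs are forbidden, also `(q, β) (q, β)`). `N` is a disjunction of variables `x (ps c)`; TRC with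
`M = 2 t`; a conjunction over `q`. Polynomial size. -/
def MAK_stmt : Prop := ∀ (k : ℕ) [NeZero k] (P : Finset (Wd k)), MajClosed P → InPPoly (SAT k P)

/-- **CL1** (medium; Mathlib only). The polymorphisms of arity 3. `f` is determined by `(f(0,0,1), f(0,1,0), f(1,0,0))` (`f 0 = 0`, self-dual): `(0,0,0)`: majority, so `P` would be closed under majority; `(1,1,1)`: `x + y + z`, so
`P` would be affine; one 1: a projection; two 1s: up to the order of the variables `f(x,y,z) = maj(x+1, y, z)`; then `f(f(x,y,z), y, z)` is the majority, so again `P` would be closed under majority (compositions of `f` preserve `P`). -/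
def CL1_stmt : Prop := ∀ (k : ℕ) (P : Finset (Wd k)), ¬ MajClosed P → ¬ AffClosed P →
  ∀ f : (Fin 3 → ZMod 2) → ZMod 2, (∀ x, f (x + 1) = f x + 1) → f 0 = 0 →
  (∀ p : Fin 3 → Wd k, (∀ l, p l ∈ P) → (fun j => f fun l => p l j) ∈ P) → ∃ l, ∀ x, f x = x l

/-- **CL2** (medium; Mathlib only). `U` = the sets `A` with `f (indicator of A) = 1`. `A ∈ U` iff the complement is not in `U`. For every partition into three (possibly empty) blocks exactly one block is in `U` (the minor is a projection). So two elements of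
`U` are never disjoint, `U` is closed under intersection (`A ∩ B`, `A \ B`, complement of `A`), `∅ ∉ U`. Let `D` be the intersection of all elements of `U` (finite), `D ∈ U`; if `D` had two elements, `D = D₁ ∪ D₂` and the partition
`D₁, D₂`, complement gives a smaller element. So `D = {i}`; `A ∈ U` iff `i ∈ A`: if `i ∈ A` then the complement does not contain `D`. -/
def CL2_stmt : Prop := ∀ (I : Type) [Fintype I] (f : (I → ZMod 2) → ZMod 2), (∀ x, f (x + 1) = f x + 1) → f 0 = 0 →
  (∀ g : I → Fin 3, ∃ l, ∀ x : Fin 3 → ZMod 2, f (x ∘ g) = x l) → ∃ i, ∀ x, f x = x i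

/-- **CL3** (short, medium; from CL1, CL2). If `f 0 = 0` apply CL1 to the minors of `f`. If `f 0 = 1`: `e(x) = f(x, ..., x) = x + 1` preserves `P`, so `f + 1 = e ∘ f` preserves `P`, and `(f + 1) 0 = 0`. -/
def CL3_stmt : Prop := ∀ (k : ℕ) (P : Finset (Wd k)), ¬ MajClosed P → ¬ AffClosed P →
  ∀ (I : Type) [Fintype I] [Nonempty I] (f : (I → ZMod 2) → ZMod 2), (∀ x, f (x + 1) = f x + 1) →
  (∀ p : I → Wd k, (∀ l, p l ∈ P) → (fun j => f fun l => p l j) ∈ P) → ∃ i c, ∀ x, f x = x i + c

/-- **GDT** (medium, long; from CL3). The gadget. `T` = the set of the `β : Fin 4 → ZMod 2` with the right side (14 elements, closed under adding 1). Vectors `y : T → ZMod 2`; `y_l = (τ ↦ τ l)` for `l : Fin 4` are different and none is another one plus 1 (and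
not its own). Choose for every vector `y` a place and a sign: `y = y_l`: place `inl l`, sign 0; `y = y_l + 1`: place `inl l`, sign 1; otherwise the place `inr` of the pair `{y, y + 1}` with sign 0 or 1 (a representative of the pair has
sign 0). `K` = for every `p : T → P` the constraint with place `j ↦` place of the vector `(τ ↦ p τ j)` and its sign. Solutions `(β, ζ)` of `K` correspond to the self-dual functions `f` (value of the place plus the sign) that preserve `P`, so by CL3
`f y = y τ + c`, `β l = f y_l = τ l + c`, and `τ + c ∈ T`. Conversely `β = τ ∈ T` comes from the projection `f y = y τ`. -/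
def GDT_stmt : Prop := ∀ (k : ℕ) (P : Finset (Wd k)), ¬ MajClosed P → ¬ AffClosed P →
  ∃ (Z : ℕ) (K : Finset ((Fin k → Fin 4 ⊕ Fin Z) × Wd k)), IsGad P K

/-- **RDS** (short, medium). The reduction from 3SAT. ⇒: `β = α` on the variables, 0 on the common variable; for every clause `c` which is present the word `(α(c.1 0) + c.2 0, ..., 0)` satisfies the right side of `IsGad`, take the `ζ`. ⇐: `u` = the value
of the common variable; `α q = β (inl q) + u`. (`Sum.elim β' ζ' (κ.1 j)` with `β' l = β (em c (inl l)) + sn c (inl l)`, `ζ' z = β (em c (inr z))`.) -/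
def RDS_stmt : Prop := ∀ (k Z : ℕ) (P : Finset (Wd k)) (K : Finset ((Fin k → Fin 4 ⊕ Fin Z) × Wd k)), IsGad P K →
  ∀ (t : ℕ) (x : Pool.Agent.SGC.Cl t → Prop),
  (∃ α : Sg t, ∀ c, x c → ∃ l, α (c.1 l) = c.2 l) ↔
    ∃ β : Vx t Z → ZMod 2, ∀ c, x c → ∀ κ ∈ K, (fun j => β (em c (κ.1 j)) + (sn (t := t) c (κ.1 j) + κ.2 j)) ∈ P

/-- **RDC** (medium; from RDS and CMP of project SGC; compare Pool/Agent/helper21/SGC/TSC.lean). `t = tv n`, number the set `Vx t Z` (`t' = t + 1 + t^3 2^3 Z` elements), `N = t' ^ k * 2 ^ k`, `tw k N = t'`. The bit of the position of the constraint `c'` is the disjunction of the bits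
`x (pos c)` over the clauses `c` for which some `κ ∈ K` gives `c'` (variables `em c (κ.1 j)`, signs `sn c (κ.1 j) + κ.2 j`): at most `n` gates for every position. Then the circuit for `SAT k P N`. -/
def RDC_stmt : Prop := ∀ (k : ℕ) [NeZero k] (Z : ℕ) (P : Finset (Wd k)) (K : Finset ((Fin k → Fin 4 ⊕ Fin Z) × Wd k)),
  IsGad P K → InPPoly (SAT k P) → InPPoly Pool.Agent.SGC.SAT3

end Pool.Agent.SGK
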