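import Pool.Agent.helper45.SGK.Spec

/-!
# Row sk:UFE (MP_069684_lc)
-/

set_option autoImplicit false

namespace Pool.Agent.SGK

open Finset Pool.Agent.helper38.Neg Pool.Agent.helper55.NT
open Pool.Agent.SGC (Sg SCirc Ext Mv hw RN Solv stA stB)

theorem UFE_ad3 (x y z : Option (ZMod 2)) (a b c d : ZMod 2) :
    ad3 (x.map fun u => u + a + b) (y.map fun u => u + b + c) (z.map fun u => u + c + d) =
      (ad3 x y z).map fun u => u + a + d := by
  have h : ∀ x y z a b c d : ZMod 2, x + a + b + (y + b + c) + (z + c + d) = x + y + z + a + d := by decide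
  rcases x with _ | x <;> rcases y with _ | y <;> rcases z with _ | z <;> simp [ad3, h]

theorem UFE_ad3' (x y z : Option (ZMod 2)) (a b c d : ZMod 2) :
    ad3 (x.map fun u => u + a + c) (y.map fun u => u + b + c) (z.map fun u => u + b + d) =
      (ad3 x y z).map fun u => u + a + d := by
  have h : ∀ x y z a b c d : ZMod 2, x + a + c + (y + b + c) + (z + b + d) = x + y + z + a + d := by decide
  rcases x with _ | x <;> rcases y with _ | y <;> rcases z with _ | z <;> simp [ad3, h]

theorem UFE : UFE_stmt := by
  intro t st a b l g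
  funext p q
  unfold mrg
  have e1 : (l.map fun u => u + g a + g b) = none ↔ l = none := by simp
  have e2 : ((st a b).map fun u => u + g a + g b) = none ↔ st a b = none := by simp
  have e3 : ((st p q).map fun u => u + g p + g q) = none ↔ st p q = none := by simp
  by_cases hc : l = none ∨ st a b ≠ none ∨ st p q ≠ none
  · rw [if_pos hc, if_pos]
    rcases hc with h | h | h
    · exact Or.inl (e1.2 h)
    · exact Or.inr (Or.inl fun h' => h (e2.1 h'))
    · exact Or.inr (Or.inr fun h' => h (e3.1 h'))
  · rw [if_neg hc, if_neg]
    · rw [UFE_ad3, UFE_ad3']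
      rcases ad3 (st p a) l (st b q) with _ | u
      · rfl
      · rfl
    · intro h
      apply hc
      rcases h with h | h | h
      · exact Or.inl (e1.1 h)
      · exact Or.inr (Or.inl fun h' => h (e2.2 h'))
      · exact Or.inr (Or.inr fun h' => h (e3.2 h'))

end Pool.Agent.SGK
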