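import Pool.Agent.helper45.SGK.All

/-!
# Project SGK (MP_069684_lc): all invariant languages
-/

set_option autoImplicit false

namespace Pool.Agent.SGK

open Finset Pool.Agent.helper38.Neg Pool.Agent.helper55.NT
open Pool.Agent.SGC (Sg SCirc Ext Mv hw RN Solv stA stB)

theorem kXor_spec (k : ℕ) (h : 3 ≤ k) : ¬ MajClosed (kXor k) ∧ AffClosed (kXor k) := by
  have h01 : (⟨0, by omega⟩ : Fin k) ≠ ⟨1, by omega⟩ := by simp
  have h02 : (⟨0, by omega⟩ : Fin k) ≠ ⟨2, by omega⟩ := by simp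
  have h12 : (⟨1, by omega⟩ : Fin k) ≠ ⟨2, by omega⟩ := by simp
  have hs : ∀ j : Fin k, (Pi.single j 1 : Wd k) ∈ kXor k := fun j =>
    mem_filter.2 ⟨mem_univ _, by simp [Pi.single_apply]⟩
  refine ⟨fun h' => ?_, fun a ha b hb c hc => ?_⟩
  · have h1 := h' _ (hs ⟨0, by omega⟩) _ (hs ⟨1, by omega⟩) _ (hs ⟨2, by omega⟩)
    rw [Exa_maj _ _ _ h01 h02 h12] at h1
    have h2 := (mem_filter.1 h1).2
    simp at h2
  · have h1 := (mem_filter.1 ha).2
    have h2 := (mem_filter.1 hb).2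
    have h3 := (mem_filter.1 hc).2
    refine mem_filter.2 ⟨mem_univ _, ?_⟩
    simp only [Pi.add_apply, sum_add_distrib, h1, h2, h3]
    decide

/-- All languages of P/Poly with invariant slices. -/
theorem all_pp (k : ℕ) [NeZero k] (hk : 3 ≤ k) (V : (n : ℕ) → Submodule (ZMod 2) (Sg (tw k n))) :
    (∀ A, InPPoly A → (∀ n, Inva (V n) (A n)) → SymPoly V A) ↔
      ∃ q : Polynomial ℕ, ∀ n, Nat.card (V n) ≤ q.eval n := by
  obtain ⟨h1, h2⟩ := kXor_spec k hk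
  constructor
  · intro h
    exact ((all_class k (kXor k) V).2.1 h1 h2).1
      (h _ (aAFK k _ h2) fun n => (FLK k n).2.2.2 (V n) _)
  · rintro ⟨q, hq⟩ A hA hI
    exact Fin_up aSMK k V q hq A hA hI

/-- All languages of NP/Poly with invariant slices. -/
theorem all_np (k : ℕ) [NeZero k] (hk : 3 ≤ k) (V : (n : ℕ) → Submodule (ZMod 2) (Sg (tw k n))) :
    (∀ A, InNPPoly A → (∀ n, Inva (V n) (A n)) → SymPoly V A) ↔
      (∀ A, InNPPoly A → InPPoly A) ∧ ∃ q : Polynomial ℕ, ∀ n, Nat.card (V n) ≤ q.eval n := by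
  obtain ⟨h1, h2, h3⟩ := kSat_spec k hk
  constructor
  · intro h
    exact ((all_class k (kSat k) V).2.2.2 h1 h2 h3).1 (h _ (SNK k _) fun n => (FLK k n).2.2.2 (V n) _)
  · rintro ⟨h, q, hq⟩ A hA hI
    exact Fin_up aSMK k V q hq A (h A hA) hI

/-- The upper bound. -/
theorem all_upp (k : ℕ) [NeZero k] (n s : ℕ) (V : Submodule (ZMod 2) (Sg (tw k n))) (C : Circuit n s)
    (o : Fin (n + s)) (f : (Fin n → Bool) → Prop) (hC : C.Computes o f) (hf : Inva V f) :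
    ∃ s' ≤ n + Nat.card V * s + 1, ∃ C' : SCirc n (Fin s'), Symm V C' ∧ ∀ x, C'.val x C'.out = true ↔ f x :=
  aSMK k n s V C o f hC hf

end Pool.Agent.SGK
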